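import Pool.Agent.P.MP_16ad8c_co.Nested

namespace Pool.Agent.P.MP_16ad8c_co

open Relation

variable {V : Type} (r : V → V → Prop) (side : V → Bool)

/-- orbits of the group generated by nested automorphisms -/
def NRel : V → V → Prop := ReflTransGen fun a c => ∃ b, Nested r side b ∧ c = b a

theorem NRel.symm {x y : V} (h : NRel r side x y) : NRel r side y x := by
  induction h with
  | refl => exact ReflTransGen.refl
  | tail _ hb ih =>
    obtain ⟨b, hb, rfl⟩ := hb
    exact ReflTransGen.head ⟨b⁻¹, hb.inv, by simp⟩ ih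

def nSetoid : Setoid V :=
  ⟨NRel r side, ⟨fun _ => ReflTransGen.refl, NRel.symm r side, ReflTransGen.trans⟩⟩

abbrev Qt := Quotient (nSetoid r side)

def mk (x : V) : Qt r side := Quotient.mk _ x

def rq (a c : Qt r side) : Prop := ∃ x y, mk r side x = a ∧ mk r side y = c ∧ r x y

def Lifts (k : Half (Qt r side)) (h : Half V) : Prop :=
  (∀ x, k.t (mk r side x) = mk r side (h.t x)) ∧ ∀ x, mk r side x ∈ k.L ↔ x ∈ h.L

def Hq : Set (Half (Qt r side)) := {k | ∃ h ∈ Top r side, Lifts r side k h}

def Twin (x y : V) : Prop := side x = side y ∧ ∀ z, r x z ↔ r y z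

variable {r side}

theorem mk_eq {x y : V} : mk r side x = mk r side y ↔ NRel r side x y := Quotient.eq

theorem mk_surj (a : Qt r side) : ∃ x, mk r side x = a := Quotient.exists_rep a

theorem mk_nested {b : Equiv.Perm V} (hb : Nested r side b) (x : V) :
    mk r side (b x) = mk r side x :=
  (mk_eq.2 (ReflTransGen.single ⟨b, hb, rfl⟩)).symm

theorem NRel.map {g : Equiv.Perm V} (hg : Aut r side g) {x y : V} (h : NRel r side x y) :
    NRel r side (g x) (g y) := by
  induction h with
  | refl => exact ReflTransGen.refl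
  | tail _ hb ih =>
    obtain ⟨b, hb, rfl⟩ := hb
    exact ReflTransGen.tail ih ⟨g * b * g⁻¹, hb.conj hg, by simp⟩

theorem NRel.adj {x x' : V} (h : NRel r side x x') :
    ∀ y, r x y → ∃ y', NRel r side y y' ∧ r x' y' := by
  induction h with
  | refl => exact fun y hy => ⟨y, ReflTransGen.refl, hy⟩
  | tail _ hb ih =>
    obtain ⟨b, hb, rfl⟩ := hb
    intro y hy
    obtain ⟨y', h1, h2⟩ := ih y hy
    exact ⟨b y', ReflTransGen.tail h1 ⟨b, hb, rfl⟩, (hb.1.2 _ _).2 h2⟩

theorem NRel.side_eq {x y : V} (h : NRel r side x y) : side x = side y := by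
  induction h with
  | refl => rfl
  | tail _ hb ih =>
    obtain ⟨b, hb, rfl⟩ := hb
    rw [hb.1.1, ih]

theorem rq_left {x : V} {c : Qt r side} (h : rq r side (mk r side x) c) :
    ∃ y, mk r side y = c ∧ r x y := by
  obtain ⟨x', y', h1, rfl, h3⟩ := h
  obtain ⟨y, h4, h5⟩ := NRel.adj (mk_eq.1 h1) y' h3
  exact ⟨y, (mk_eq.2 h4).symm, h5⟩

variable [Finite V]

theorem NRel.mem {h : Half V} (hh : h ∈ Top r side) {x y : V} (hxy : NRel r side x y) :
    x ∈ h.L ↔ y ∈ h.L := by
  induction hxy with
  | refl => rfl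
  | tail _ hb ih =>
    obtain ⟨b, hb, rfl⟩ := hb
    rw [ih, nested_pres hb hh]

theorem exists_lift {h : Half V} (hh : h ∈ Top r side) : ∃ k, Lifts r side k h := by
  let f : Qt r side → Qt r side :=
    Quotient.map h.t fun _ _ hxy => NRel.map (All.aut hh.1) hxy
  have hf : ∀ x, f (mk r side x) = mk r side (h.t x) := fun _ => rfl
  have inv : Function.Involutive f := by
    intro a
    obtain ⟨x, rfl⟩ := mk_surj a
    rw [hf, hf, hh.1.1.invol]
  refine ⟨⟨inv.toPerm, {a | ∃ x ∈ h.L, mk r side x = a}⟩, hf, fun x => ⟨?_, fun hx => ⟨x, hx, rfl⟩⟩⟩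
  rintro ⟨y, hy, e⟩
  exact (NRel.mem hh (mk_eq.1 e)).1 hy

omit [Finite V] in
theorem Lifts.fix {k : Half (Qt r side)} {h : Half V} (hh : h ∈ Top r side)
    (l : Lifts r side k h) {x : V} (e : k.t (mk r side x) = mk r side x) : h.t x = x := by
  by_contra hne
  have eh := hh.1.1
  rw [l.1] at e
  rcases eh.cover x hne with h1 | h1
  · exact eh.swap x h1 ((l.2 _).1 (e ▸ (l.2 _).2 h1))
  · exact eh.swap x ((l.2 _).1 (e ▸ (l.2 _).2 h1)) h1

omit [Finite V] in
theorem Lifts.elem {k : Half (Qt r side)} {h : Half V} (hh : h ∈ Top r side)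
    (l : Lifts r side k h) : IsElem (rq r side) k := by
  have eh := hh.1.1
  refine ⟨⟨?_, ?_, ?_, ?_, ?_⟩, ?_, ?_⟩
  · intro a
    obtain ⟨x, rfl⟩ := mk_surj a
    rw [l.1, l.1, eh.invol]
  · rintro _ _ ⟨x, y, rfl, rfl, hr⟩
    exact ⟨h.t x, h.t y, (l.1 x).symm, (l.1 y).symm, eh.aut x y hr⟩
  · intro a ha
    obtain ⟨x, rfl⟩ := mk_surj a
    rw [l.1, l.2]
    exact eh.swap x ((l.2 x).1 ha)
  · intro a ha
    obtain ⟨x, rfl⟩ := mk_surj a
    rw [l.1, l.2, l.2]
    exact eh.cover x fun e => ha (by rw [l.1, e])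
  · intro a ha c hr
    obtain ⟨x, rfl⟩ := mk_surj a
    obtain ⟨y, rfl, hy⟩ := rq_left hr
    rcases eh.cut x ((l.2 x).1 ha) y hy with h1 | h1
    · exact Or.inl ((l.2 y).2 h1)
    · exact Or.inr (by rw [l.1, h1])
  · intro a ha c hc
    obtain ⟨x, rfl⟩ := mk_surj a
    obtain ⟨y, rfl⟩ := mk_surj c
    exact eh.ind (P := fun z => ReflTransGen (fun a b => b ∈ k.L ∧ rq r side a b) (mk r side x)
      (mk r side z)) ((l.2 x).1 ha) ReflTransGen.refl
      (fun u _ v hv hr ih => ih.tail ⟨(l.2 v).2 hv, u, v, rfl, rfl, hr⟩) y ((l.2 y).1 hc)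
  · obtain ⟨x, hx⟩ := eh.ne
    exact ⟨mk r side x, (l.2 x).2 hx⟩

omit [Finite V] in
theorem hq_sys : IsSys (rq r side) (Hq r side) where
  elem := by
    rintro k ⟨h, hh, l⟩
    exact l.elem hh
  flip_mem := by
    rintro k ⟨h, hh, l⟩
    exact ⟨h.flip, Top.flip hh, l.1, fun x => by rw [Half.mem_flip, l.1, l.2]; rfl⟩
  conj_mem := by
    rintro s' ⟨s, hs, ls⟩ k ⟨h, hh, l⟩
    have e1 := (ls.elem hs).inv_eq
    have e2 := hs.1.1.inv_eq
    refine ⟨h.act s.t, Top.act hh (All.aut hs.1), fun x => ?_, fun x => ?_⟩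
    · simp only [Half.act_t, e1, e2, Equiv.Perm.mul_apply, ls.1, l.1]
    · simp only [Half.mem_act, e1, e2, ls.1, l.2]

omit [Finite V] in
theorem hq_nsw (hs : ∀ x y, r x y → r y x) : NSW (Hq r side) := by
  rintro s' ⟨s, hs', ls⟩ k' ⟨k, hk, lk⟩ e1 e2
  have f1 : ∀ x, x ∈ s.L ↔ x ∈ k.L := fun x => by rw [← ls.2, ← lk.2, e1]
  have f2 : ∀ x, s.t x ∈ s.L ↔ k.t x ∈ k.L := fun x => by
    rw [← ls.2, ← lk.2, ← ls.1, ← lk.1, ← Half.mem_flip, ← Half.mem_flip, e2]
  ext a
  obtain ⟨x, rfl⟩ := mk_surj a
  rw [ls.1, lk.1]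
  have es := hs'.1.1
  have ek := hk.1.1
  by_cases h1 : s.t x ∈ s.L
  · obtain ⟨b, hb, e⟩ := same_wall hs hs'.1 hk.1 f1 f2 h1
    rw [← e, mk_nested hb]
  by_cases h2 : x ∈ s.L
  · obtain ⟨b, hb, e⟩ := same_wall (x := x) hs (All.flip hs'.1) (All.flip hk.1) f2
      (fun y => by simpa [es.invol, ek.invol] using f1 y) (by simpa [es.invol] using h2)
    rw [Half.flip_t, Half.flip_t] at e
    rw [← e, mk_nested hb]
  · have g1 : s.t x = x := by
      by_contra hne
      exact (es.cover x hne).elim h2 h1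
    have g2 : k.t x = x := by
      by_contra hne
      exact (ek.cover x hne).elim (fun h => h2 ((f1 x).2 h)) (fun h => h1 ((f2 x).2 h))
    rw [g1, g2]

omit [Finite V] in
theorem rq_symm (hs : ∀ x y, r x y → r y x) : ∀ a c, rq r side a c → rq r side c a := by
  rintro _ _ ⟨x, y, rfl, rfl, hr⟩
  exact ⟨y, x, rfl, rfl, hs _ _ hr⟩

theorem orb_quot {x y : V} (h : Orb (All r side) x y) :
    Orb (Hq r side) (mk r side x) (mk r side y) := by
  induction h with
  | refl => exact ReflTransGen.refl
  | tail _ hb ih =>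
    obtain ⟨u, hu, rfl⟩ := hb
    by_cases hn : Nested r side u.t
    · rw [mk_nested hn]
      exact ih
    · obtain ⟨k, l⟩ := exists_lift (h := u) ⟨hu, hn⟩
      exact ReflTransGen.tail ih ⟨k, ⟨u, ⟨hu, hn⟩, l⟩, (l.1 _).symm⟩

omit [Finite V] in
theorem lift_seq {mq : Qt r side → Qt r side} (h : FoldSeq (Hq r side) mq) :
    ∃ m, FoldSeq (All r side) m ∧ ∀ x, mk r side (m x) = mq (mk r side x) := by
  induction h with
  | id => exact ⟨id, FoldSeq.id, fun _ => rfl⟩
  | @step m0 k hk _ ih =>
    obtain ⟨m, hm, e⟩ := ih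
    obtain ⟨h, hh, l⟩ := hk
    refine ⟨h.fold ∘ m, hm.step hh.1, fun x => ?_⟩
    have e1 : k.t (mk r side (m x)) ∈ k.L ↔ h.t (m x) ∈ h.L := by rw [l.1, l.2]
    simp only [Function.comp]
    rw [← e]
    unfold Half.fold
    by_cases hx : h.t (m x) ∈ h.L
    · rw [if_pos hx, if_pos (e1.2 hx), l.1]
    · rw [if_neg hx, if_neg (fun h2 => hx (e1.1 h2))]

section main

variable (hs : ∀ x y, r x y → r y x) (hside : ∀ x y, r x y → side x ≠ side y)
  (hconn : ∀ x y, ReflTransGen r x y)
  (htr : ∀ x y, side x = side y → Orb (All r side) x y)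
include hs hside hconn htr

theorem nested_twin {b : Equiv.Perm V} (hb : Nested r side b) (x : V) : Twin r side x (b x) := by
  refine ⟨(hb.1.1 x).symm, ?_⟩
  obtain ⟨s, hs', hsup⟩ := hb.top
  obtain ⟨x0, hx0⟩ := hs'.1.1.flip.ne
  set Qp : V → Prop := fun v => ∀ x, NRel r side v x → ∀ z, r x z ↔ r (b x) z with hQ
  have base : Qp x0 := by
    intro x hx z
    have h1 : x ∈ s.flip.L := (NRel.mem (Top.flip hs') hx).1 hx0
    have : b x = x := by
      by_contra hne
      exact hs'.1.1.swap x (hsup x hne) h1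
    rw [this]
  have step : ∀ v w, r v w → Qp v → Qp w := by
    intro v w hr hv y hy
    have hby : mk r side (b y) = mk r side w := by rw [mk_nested hb, mk_eq.2 hy]
    have hy' : mk r side y = mk r side w := (mk_eq.2 hy).symm
    set P : Qt r side → Prop := fun a => ∀ x, mk r side x = a → (r y x ↔ r (b y) x) with hP
    have P0 : P (mk r side v) := by
      intro x hx
      have hx' : NRel r side v x := mk_eq.1 hx.symm
      constructor
      · intro h1
        exact hs _ _ ((hv x hx' _).2 (hs _ _ ((hb.1.2 _ _).2 h1)))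
      · intro h1
        have h2 : NRel r side v (b⁻¹ x) := ReflTransGen.tail hx' ⟨b⁻¹, hb.inv, rfl⟩
        have h3 : r y (b⁻¹ x) := (hb.1.2 _ _).1 (by simpa using h1)
        simpa using hs _ _ ((hv _ h2 y).1 (hs _ _ h3))
    have chain : ∀ a, ReflTransGen (fun a c => ∃ k ∈ Hq r side,
        k.t (mk r side w) = mk r side w ∧ c = k.t a) a (mk r side v) → P a := by
      intro a ha
      induction ha using ReflTransGen.head_induction_on with
      | refl => exact P0
      | head hab _ ih =>
        obtain ⟨k, ⟨h, hh, l⟩, kw, rfl⟩ := hab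
        rintro x rfl
        have f1 : h.t y = y := l.fix hh (by rw [hy', kw])
        have f2 : h.t (b y) = b y := l.fix hh (by rw [hby, kw])
        have := ih (h.t x) (l.1 x).symm
        rw [← hh.1.1.aut_iff y x, ← hh.1.1.aut_iff (b y) x, f1, f2]
        exact this
    have all : ∀ x u, mk r side u = mk r side w → r u x → P (mk r side x) := by
      intro x u hu hux
      have s1 : side u = side w := NRel.side_eq (mk_eq.1 hu)
      have s2 := hside _ _ hux
      have s3 := hside _ _ hr
      have s4 : side v = side x := by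
        rw [s1] at s2
        revert s2 s3
        cases side v <;> cases side w <;> cases side x <;> simp
      exact chain _ (local_trans (rq_symm hs) hq_sys (hq_nsw hs) ⟨w, v, rfl, rfl, hs _ _ hr⟩
        ⟨u, x, hu, rfl, hux⟩ (orb_quot (htr v x s4)))
    intro z
    exact ⟨fun h1 => (all z y hy' h1 z rfl).1 h1, fun h1 => (all z (b y) hby h1 z rfl).2 h1⟩
  have : Qp x := by
    have hc := hconn x0 x
    induction hc with
    | refl => exact base
    | tail _ hr ih => exact step _ _ hr ih
  exact this x ReflTransGen.refl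

theorem NRel.twin {x y : V} (h : NRel r side x y) : Twin r side x y := by
  induction h with
  | refl => exact ⟨rfl, fun _ => Iff.rfl⟩
  | tail _ hb ih =>
    obtain ⟨b, hb, rfl⟩ := hb
    have := nested_twin hs hside hconn htr hb
    exact ⟨ih.1.trans (this _).1, fun z => (ih.2 z).trans ((this _).2 z)⟩

omit [Finite V] hconn htr in
theorem twin_fold [DecidableEq V] {x y : V} (hne : x ≠ y) (ht : Twin r side x y) :
    (⟨Equiv.swap x y, {x}⟩ : Half V) ∈ All r side := by
  have tw : ∀ a, Twin r side a (Equiv.swap x y a) := by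
    intro a
    rw [Equiv.swap_apply_def]
    split_ifs with h1 h2
    · rw [h1]; exact ht
    · rw [h2]; exact ⟨ht.1.symm, fun z => (ht.2 z).symm⟩
    · exact ⟨rfl, fun _ => Iff.rfl⟩
  refine ⟨⟨⟨?_, ?_, ?_, ?_, ?_⟩, ?_, ⟨x, rfl⟩⟩, fun a => (tw a).1.symm⟩
  · intro a; simp
  · intro a c hr
    exact hs _ _ (((tw c).2 _).1 (hs _ _ (((tw a).2 c).1 hr)))
  · rintro a rfl
    simpa using hne.symm
  · intro a ha
    simp only [Equiv.swap_apply_def, Set.mem_singleton_iff] at ha ⊢
    split_ifs at ha ⊢ with h1 h2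
    · exact Or.inl h1
    · exact Or.inr rfl
    · exact absurd rfl ha
  · rintro a rfl c hr
    right
    have h1 := hside _ _ hr
    exact Equiv.swap_apply_of_ne_of_ne (fun e => h1 (by rw [e])) (fun e => h1 (by rw [e, ht.1]))
  · rintro a rfl c rfl
    exact ReflTransGen.refl

omit [Finite V] hs hside hconn htr in
theorem FoldSeq.side_eq {m : V → V} (hm : FoldSeq (All r side) m) (x : V) :
    side (m x) = side x := by
  induction hm with
  | id => rfl
  | step hh _ ih =>
    simp only [Function.comp, Half.fold]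
    split_ifs
    · rw [hh.2, ih]
    · exact ih

/-- percolation: some composition of folding maps is constant on each side -/
theorem percolation :
    ∃ m, FoldSeq (All r side) m ∧ ∀ x y, side x = side y → m x = m y := by
  classical
  obtain ⟨mq, hmq, hc⟩ := exists_fold_const (rq_symm hs) (hq_sys (r := r) (side := side))
    (hq_nsw hs)
  obtain ⟨m, hm, e⟩ := lift_seq hmq
  have tw : ∀ x y, side x = side y → Twin r side (m x) (m y) := fun x y hxy =>
    NRel.twin hs hside hconn htr (mk_eq.1 (by rw [e, e, hc _ _ (orb_quot (htr x y hxy))]))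
  have key : ∀ n, ∀ m, FoldSeq (All r side) m →
      (∀ x y, side x = side y → Twin r side (m x) (m y)) → (Set.range m).ncard < n →
      ∃ m, FoldSeq (All r side) m ∧ ∀ x y, side x = side y → m x = m y := by
    intro n
    induction n with
    | zero => intro m _ _ h; omega
    | succ n ih =>
      intro m hm tw hn
      by_cases hall : ∀ x y, side x = side y → m x = m y
      · exact ⟨m, hm, hall⟩
      push Not at hall
      obtain ⟨x, y, hxy, hne⟩ := hall
      have hf := twin_fold hs hside hne (tw x y hxy)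
      set k : Half V := ⟨Equiv.swap (m x) (m y), {m x}⟩ with hk
      have fk : ∀ a, k.fold a = if a = m y then m x else a := by
        intro a
        simp only [Half.fold, hk, Set.mem_singleton_iff, Equiv.swap_apply_eq_iff,
          Equiv.swap_apply_left]
        split_ifs with h1
        · rw [h1, Equiv.swap_apply_right]
        · rfl
      have t1 : ∀ a, Twin r side a (k.fold a) := by
        intro a
        rw [fk]
        split_ifs with h1
        · rw [h1]; exact tw y x hxy.symm
        · exact ⟨rfl, fun _ => Iff.rfl⟩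
      refine ih (k.fold ∘ m) (hm.step hf) (fun a c hac => ?_) ?_
      · have a1 := t1 (m a)
        have a2 := t1 (m c)
        have a3 := tw a c hac
        exact ⟨a1.1.symm.trans (a3.1.trans a2.1),
          fun z => (a1.2 z).symm.trans ((a3.2 z).trans (a2.2 z))⟩
      · have : (Set.range (k.fold ∘ m)).ncard < (Set.range m).ncard := by
          refine Set.ncard_lt_ncard ⟨?_, fun hsub => ?_⟩ (Set.toFinite _)
          · rintro _ ⟨a, rfl⟩
            simp only [Function.comp, fk]
            split_ifs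
            · exact ⟨x, rfl⟩
            · exact ⟨a, rfl⟩
          · obtain ⟨a, ha⟩ := hsub ⟨y, rfl⟩
            simp only [Function.comp, fk] at ha
            split_ifs at ha with h1
            · exact hne ha
            · exact h1 ha
        omega
  exact key _ m hm tw (Nat.lt_succ_self _)

end main

omit [Finite V] in
/-- orbits under all folds are orbits under elementary folds -/
theorem fold_orb {h : Half V} (hh : IsFoldH r h) (hsd : ∀ x, side (h.t x) = side x)
    (hs : ∀ x y, r x y → r y x) (x : V) : Orb (All r side) x (h.t x) := by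
  classical
  have key : ∀ x ∈ h.L, ∃ k ∈ All r side, k.t x = h.t x := by
    intro x hx
    set Y : Set V := {z | ReflTransGen (fun a c => c ∈ h.L ∧ r a c) x z} with hY
    have YL : ∀ z ∈ Y, z ∈ h.L := by
      intro z hz
      induction hz with
      | refl => exact hx
      | tail _ hb _ => exact hb.1
    have Ycut : ∀ a ∈ Y, ∀ c, r a c → c ∈ Y ∨ h.t c = c := fun a ha c hr =>
      (hh.cut a (YL a ha) c hr).imp (fun h1 => ReflTransGen.tail ha ⟨h1, hr⟩) id
    let f : V → V := fun z => if z ∈ Y ∨ h.t z ∈ Y then h.t z else z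
    have hf : ∀ z, f z = if z ∈ Y ∨ h.t z ∈ Y then h.t z else z := fun _ => rfl
    have inv : Function.Involutive f := by
      intro z
      by_cases hz : z ∈ Y ∨ h.t z ∈ Y
      · rw [hf z, if_pos hz, hf, if_pos (by rw [hh.invol]; exact hz.symm), hh.invol]
      · rw [hf z, if_neg hz, hf, if_neg hz]
    have out : ∀ a, (a ∈ Y ∨ h.t a ∈ Y) → ∀ c, r a c → ¬ (c ∈ Y ∨ h.t c ∈ Y) → h.t c = c := by
      intro a ha c hr hc
      rcases ha with ha | ha
      · exact (Ycut a ha c hr).resolve_left fun h1 => hc (Or.inl h1)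
      · have := (Ycut _ ha _ (hh.aut a c hr)).resolve_left fun h1 => hc (Or.inr h1)
        rw [hh.invol] at this
        exact this.symm
    have Ysymm : ∀ z ∈ Y, ReflTransGen (fun a c => c ∈ Y ∧ r a c) z x ∧
        ReflTransGen (fun a c => c ∈ Y ∧ r a c) x z := by
      intro z hz
      induction hz with
      | refl => exact ⟨ReflTransGen.refl, ReflTransGen.refl⟩
      | tail hab hb ih =>
        exact ⟨ReflTransGen.head ⟨hab, hs _ _ hb.2⟩ ih.1,
          ih.2.tail ⟨ReflTransGen.tail hab hb, hb.2⟩⟩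
    refine ⟨⟨inv.toPerm, Y⟩, ⟨⟨⟨inv, ?_, ?_, ?_, ?_⟩, ?_, ⟨x, ReflTransGen.refl⟩⟩, ?_⟩, ?_⟩
    · intro a c hr
      change r (f a) (f c)
      rw [hf, hf]
      split_ifs with h1 h2 h2
      · exact hh.aut a c hr
      · have := hh.aut a c hr
        rwa [out a h1 c hr h2] at this
      · have := hh.aut a c hr
        rwa [out c h2 a (hs _ _ hr) h1] at this
      · exact hr
    · intro a ha
      change f a ∉ Y
      rw [hf, if_pos (Or.inl ha)]
      exact fun h1 => hh.swap a (YL a ha) (YL _ h1)
    · intro a ha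
      change f a ≠ a at ha
      change a ∈ Y ∨ f a ∈ Y
      rw [hf] at ha ⊢
      split_ifs at ha ⊢ with h1
      · exact h1
      · exact absurd rfl ha
    · intro a ha c hr
      change c ∈ Y ∨ f c = c
      rcases Ycut a ha c hr with h1 | h1
      · exact Or.inl h1
      · right
        rw [hf]
        split_ifs
        · exact h1
        · rfl
    · intro a ha c hc
      exact (Ysymm a ha).1.trans (Ysymm c hc).2
    · intro a
      change side (f a) = side a
      rw [hf]
      split_ifs
      · exact hsd a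
      · rfl
    · change f x = h.t x
      have hxY : x ∈ Y := ReflTransGen.refl
      rw [hf, if_pos (Or.inl hxY)]
  by_cases e : h.t x = x
  · rw [e]; exact ReflTransGen.refl
  rcases hh.cover x e with h1 | h1
  · obtain ⟨k, hk, e⟩ := key x h1
    exact ReflTransGen.single ⟨k, hk, e.symm⟩
  · obtain ⟨k, hk, e⟩ := key _ h1
    refine ReflTransGen.single ⟨k, hk, ?_⟩
    rw [hh.invol] at e
    rw [← hk.1.invol (h.t x), e]

end Pool.Agent.P.MP_16ad8c_co
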