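import Pool.Agent.P.MP_16ad8c_co.Chamber

namespace Pool.Agent.P.MP_16ad8c_co

open MeasureTheory ENNReal

universe u

theorem cs_weight {α : Type*} [MeasurableSpace α] (μ : Measure α) {c x y : α → ℝ≥0∞}
    (hc : Measurable c) (hx : Measurable x) (hy : Measurable y) :
    (∫⁻ a, c a * (x a * y a) ∂μ) ^ 2 ≤
      (∫⁻ a, c a * (x a * x a) ∂μ) * ∫⁻ a, c a * (y a * y a) ∂μ := by
  have e : ∀ {f : α → ℝ≥0∞}, Measurable f → ∫⁻ a, c a * f a ∂μ = ∫⁻ a, f a ∂μ.withDensity c :=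
    fun hf => (lintegral_withDensity_eq_lintegral_mul μ hc hf).symm
  rw [e (f := fun a => x a * y a) (hx.mul hy), e (f := fun a => x a * x a) (hx.mul hx),
    e (f := fun a => y a * y a) (hy.mul hy)]
  have h := ENNReal.lintegral_mul_le_Lp_mul_Lq (μ.withDensity c) Real.HolderConjugate.two_two
    hx.aemeasurable hy.aemeasurable
  have h2 := pow_le_pow_left' h 2
  rw [mul_pow, ← ENNReal.rpow_natCast, ← ENNReal.rpow_natCast (_ ^ (1 / 2 : ℝ)),
    ← ENNReal.rpow_natCast (_ ^ (1 / 2 : ℝ)), ← ENNReal.rpow_mul, ← ENNReal.rpow_mul] at h2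
  norm_num at h2
  simpa only [sq] using h2

variable {V : Type} [Fintype V] {Ω : Type u} [MeasurableSpace Ω] (P : Measure Ω)
  [IsProbabilityMeasure P]

theorem reflection_positivity {r : V → V → Prop} {h : Half V} (hh : IsFoldH r h)
    {A B C : (V → Ω) → ℝ≥0∞} (mA : Measurable A) (mB : Measurable B) (mC : Measurable C)
    (hA : ∀ ω ω', (∀ v, h.t v ∉ h.L → ω v = ω' v) → A ω = A ω')
    (hB : ∀ ω ω', (∀ v, h.t v ∉ h.L → ω v = ω' v) → B ω = B ω')
    (hC : ∀ ω ω', (∀ v, h.t v = v → ω v = ω' v) → C ω = C ω') :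
    (∫⁻ ω, A ω * B (ω ∘ h.t) * C ω ∂(Measure.pi fun _ => P)) ^ 2 ≤
      (∫⁻ ω, A ω * A (ω ∘ h.t) * C ω ∂(Measure.pi fun _ => P)) *
        ∫⁻ ω, B ω * B (ω ∘ h.t) * C ω ∂(Measure.pi fun _ => P) := by
  classical
  have : Nonempty Ω := nonempty_of_isProbabilityMeasure P
  let F := {v // h.t v = v}
  let L := {v // v ∈ h.L}
  let f : F ⊕ (L ⊕ L) → V := Sum.elim (fun a => a.1) (Sum.elim (fun a => a.1) (fun a => h.t a.1))
  have hf : Function.Bijective f := by
    constructor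
    · rintro (a | a | a) (b | b | b) e <;> simp only [f, Sum.elim_inl, Sum.elim_inr] at e
      · rw [Subtype.ext e]
      · exact absurd (e ▸ a.2) (hh.notfix b.2)
      · exact absurd (e ▸ a.2) (hh.flip.notfix (x := h.t b.1) (by simp [hh.invol]))
      · exact absurd (e ▸ b.2) (hh.notfix a.2)
      · rw [Subtype.ext e]
      · exact absurd (e ▸ a.2) (hh.swap _ b.2)
      · exact absurd (e ▸ b.2) (hh.flip.notfix (x := h.t a.1) (by simp [hh.invol]))
      · exact absurd (e ▸ b.2) (hh.swap _ a.2)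
      · rw [Subtype.ext (h.t.injective e)]
    · intro v
      by_cases e : h.t v = v
      · exact ⟨Sum.inl ⟨v, e⟩, rfl⟩
      rcases hh.cover v e with h1 | h1
      · exact ⟨Sum.inr (Sum.inl ⟨v, h1⟩), rfl⟩
      · exact ⟨Sum.inr (Sum.inr ⟨_, h1⟩), hh.invol v⟩
  let e : F ⊕ (L ⊕ L) ≃ V := Equiv.ofBijective f hf
  have m1 := measurePreserving_sumPiEquivProdPi_symm (X := fun _ : L ⊕ L => Ω) (fun _ => P)
  have m2 := (MeasurePreserving.id (Measure.pi fun _ : F => P)).prod m1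
  have m3 := measurePreserving_sumPiEquivProdPi_symm (X := fun _ : F ⊕ (L ⊕ L) => Ω) (fun _ => P)
  have m4 := measurePreserving_piCongrLeft (α := fun _ : V => Ω) (fun _ => P) e
  have m := m4.comp (m3.comp m2)
  set Ψ := (MeasurableEquiv.piCongrLeft (fun _ : V => Ω) e) ∘
    ((MeasurableEquiv.sumPiEquivProdPi fun _ : F ⊕ (L ⊕ L) => Ω).symm ∘
      Prod.map id (MeasurableEquiv.sumPiEquivProdPi fun _ : L ⊕ L => Ω).symm) with hΨ
  have ev : ∀ a b c i, Ψ (a, b, c) (f i) = Sum.elim a (Sum.elim b c) i := by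
    intro a b c i
    have := MeasurableEquiv.piCongrLeft_apply_apply (β := fun _ : V => Ω) e
      ((MeasurableEquiv.sumPiEquivProdPi fun _ : F ⊕ (L ⊕ L) => Ω).symm
        (a, (MeasurableEquiv.sumPiEquivProdPi fun _ : L ⊕ L => Ω).symm (b, c))) i
    refine this.trans ?_
    rcases i with i | i | i <;> rfl
  have evF : ∀ a b c (v : F), Ψ (a, b, c) v.1 = a v := fun a b c v => ev a b c (Sum.inl v)
  have evL : ∀ a b c (v : L), Ψ (a, b, c) v.1 = b v :=
    fun a b c v => ev a b c (Sum.inr (Sum.inl v))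
  have evR : ∀ a b c (v : L), Ψ (a, b, c) (h.t v.1) = c v :=
    fun a b c v => ev a b c (Sum.inr (Sum.inr v))
  have mt : Measurable fun ω : V → Ω => ω ∘ h.t :=
    measurable_pi_lambda _ fun v => measurable_pi_apply _
  have mdiag : Measurable fun z : (F → Ω) × (L → Ω) => Ψ (z.1, z.2, z.2) :=
    m.measurable.comp (measurable_fst.prodMk (measurable_snd.prodMk measurable_snd))
  let b0 : L → Ω := Classical.arbitrary _
  let c0 : (F → Ω) → ℝ≥0∞ := fun a => C (Ψ (a, b0, b0))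
  have mc0 : Measurable c0 := mC.comp (mdiag.comp (measurable_id.prodMk measurable_const))
  let tl : ((V → Ω) → ℝ≥0∞) → (F → Ω) → ℝ≥0∞ := fun X a =>
    ∫⁻ b, X (Ψ (a, b, b)) ∂(Measure.pi fun _ : L => P)
  have mtl : ∀ X, Measurable X → Measurable (tl X) := fun X hX =>
    (hX.comp mdiag).lintegral_prod_right'
  have key : ∀ X Y : (V → Ω) → ℝ≥0∞, Measurable X → Measurable Y →
      (∀ ω ω', (∀ v, h.t v ∉ h.L → ω v = ω' v) → X ω = X ω') →
      (∀ ω ω', (∀ v, h.t v ∉ h.L → ω v = ω' v) → Y ω = Y ω') →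
      ∫⁻ ω, X ω * Y (ω ∘ h.t) * C ω ∂(Measure.pi fun _ => P) =
        ∫⁻ a, c0 a * (tl X a * tl Y a) ∂(Measure.pi fun _ : F => P) := by
    intro X Y mX mY hX hY
    have mI : Measurable fun ω => X ω * Y (ω ∘ h.t) * C ω := (mX.mul (mY.comp mt)).mul mC
    have mI' : Measurable fun z => X (Ψ z) * Y (Ψ z ∘ h.t) * C (Ψ z) := mI.comp m.measurable
    rw [← m.lintegral_comp mI, lintegral_prod _ mI'.aemeasurable]
    refine lintegral_congr fun a => ?_
    have mXa : Measurable fun b : L → Ω => X (Ψ (a, b, b)) :=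
      mX.comp (mdiag.comp (measurable_const.prodMk measurable_id))
    have mYa : Measurable fun b : L → Ω => Y (Ψ (a, b, b)) :=
      mY.comp (mdiag.comp (measurable_const.prodMk measurable_id))
    have mXY : Measurable fun z : (L → Ω) × (L → Ω) =>
        X (Ψ (a, z.1, z.1)) * Y (Ψ (a, z.2, z.2)) :=
      (mXa.comp measurable_fst).mul (mYa.comp measurable_snd)
    simp only [tl]
    rw [← lintegral_prod_mul mXa.aemeasurable mYa.aemeasurable, ← lintegral_const_mul _ mXY]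
    refine lintegral_congr ?_
    rintro ⟨b, c⟩
    have e1 : X (Ψ (a, b, c)) = X (Ψ (a, b, b)) := hX _ _ fun v hv => by
      by_cases e : h.t v = v
      · rw [evF a b c ⟨v, e⟩, evF a b b ⟨v, e⟩]
      · have h1 := (hh.cover v e).resolve_right hv
        rw [evL a b c ⟨v, h1⟩, evL a b b ⟨v, h1⟩]
    have e2 : Y (Ψ (a, b, c) ∘ h.t) = Y (Ψ (a, c, c)) := hY _ _ fun v hv => by
      by_cases e : h.t v = v
      · rw [Function.comp_apply, e, evF a b c ⟨v, e⟩, evF a c c ⟨v, e⟩]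
      · have h1 := (hh.cover v e).resolve_right hv
        rw [Function.comp_apply, evR a b c ⟨v, h1⟩, evL a c c ⟨v, h1⟩]
    have e3 : C (Ψ (a, b, c)) = c0 a := hC _ _ fun v e => by
      rw [evF a b c ⟨v, e⟩, evF a b0 b0 ⟨v, e⟩]
    rw [e1, e2, e3, mul_comm]
  rw [key A B mA mB hA hB, key A A mA mA hA hA, key B B mB mB hB hB]
  exact cs_weight _ mc0 (mtl A mA) (mtl B mB)

/-- the decorated density -/
noncomputable def Idens (D : Finset (V × V)) (G : V → V → Ω × Ω → ℝ≥0∞) : ℝ≥0∞ :=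
  ∫⁻ ω, ∏ d ∈ D, G d.1 d.2 (ω d.1, ω d.2) ∂(Measure.pi fun _ : V => P)

theorem fold_ineq {r : V → V → Prop} (hs : ∀ x y, r x y → r y x) {h : Half V} (hh : IsFoldH r h)
    (D : Finset (V × V)) (hD : ∀ d ∈ D, (h.t d.1, h.t d.2) ∈ D) (hr : ∀ d ∈ D, r d.1 d.2)
    (G : V → V → Ω × Ω → ℝ≥0∞) (mG : ∀ a b, Measurable (G a b)) :
    Idens P D G ^ 2 ≤ Idens P D (fun a b => G (h.fold a) (h.fold b)) *
      Idens P D (fun a b => G (h.flip.fold a) (h.flip.fold b)) := by
  classical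
  set DL := D.filter (fun d => d.1 ∈ h.L ∨ d.2 ∈ h.L) with hDL
  set DF := D.filter (fun d => h.t d.1 = d.1 ∧ h.t d.2 = d.2) with hDF
  have nL : ∀ d ∈ DL, h.t d.1 ∉ h.L ∧ h.t d.2 ∉ h.L := by
    intro d hd
    obtain ⟨h1, h2 | h2⟩ := Finset.mem_filter.1 hd
    · exact ⟨hh.swap _ h2, fun h3 => hh.no_edge h2 h3 (hr d h1)⟩
    · exact ⟨fun h3 => hh.no_edge h2 h3 (hs _ _ (hr d h1)), hh.swap _ h2⟩
  have split : ∀ K : V → V → ℝ≥0∞, ∏ d ∈ D, K d.1 d.2 =
      (∏ d ∈ DL, K d.1 d.2) * (∏ d ∈ DL, K (h.t d.1) (h.t d.2)) * ∏ d ∈ DF, K d.1 d.2 := by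
    intro K
    rw [← Finset.prod_filter_mul_prod_filter_not D (fun d => d.1 ∈ h.L ∨ d.2 ∈ h.L),
      ← Finset.prod_filter_mul_prod_filter_not (D.filter fun d => ¬ (d.1 ∈ h.L ∨ d.2 ∈ h.L))
        (fun d => h.t d.1 ∈ h.L ∨ h.t d.2 ∈ h.L), mul_assoc]
    congr 2
    · refine Finset.prod_bij' (fun d _ => (h.t d.1, h.t d.2)) (fun d _ => (h.t d.1, h.t d.2))
        ?_ ?_ ?_ ?_ ?_
      · intro d hd
        simp only [Finset.mem_filter] at hd
        exact Finset.mem_filter.2 ⟨hD d hd.1.1, hd.2⟩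
      · intro d hd
        have := nL d hd
        simp only [hDL, Finset.mem_filter, hh.invol] at hd ⊢
        exact ⟨⟨hD d hd.1, by tauto⟩, hd.2⟩
      · intro d _; simp [hh.invol]
      · intro d _; simp [hh.invol]
      · intro d _; simp [hh.invol]
    · congr 1
      ext d
      have c1 := hh.cover d.1
      have c2 := hh.cover d.2
      have n1 := hh.notfix (x := d.1)
      have n2 := hh.notfix (x := d.2)
      have n3 := hh.notfix' (x := d.1)
      have n4 := hh.notfix' (x := d.2)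
      simp only [hDF, Finset.mem_filter]
      tauto
  have fx : ∀ u, h.t u ∉ h.L → u ∉ h.L → h.t u = u := fun u h1 h2 => by
    by_contra hne
    exact (hh.cover u hne).elim h2 h1
  have f1 : ∀ u, h.t u ∉ h.L → h.fold u = u := fun u hu => by simp [Half.fold, hu]
  have f2 : ∀ u, h.t u ∉ h.L → h.fold (h.t u) = u := fun u hu => by
    simp only [Half.fold, hh.invol]
    split_ifs with h1
    · rfl
    · exact fx u hu h1
  have f3 : ∀ u, h.t u ∉ h.L → h.flip.fold u = h.t u := fun u hu => by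
    simp only [Half.fold, Half.mem_flip, Half.flip_t, hh.invol]
    split_ifs with h1
    · rfl
    · exact (fx u hu h1).symm
  have f4 : ∀ u, h.t u ∉ h.L → h.flip.fold (h.t u) = h.t u := fun u hu => by
    simp [Half.fold, hh.invol, hu]
  have f5 : ∀ u, h.t u = u → h.fold u = u := fun u hu => by simp [Half.fold, hu]
  have f6 : ∀ u, h.t u = u → h.flip.fold u = u := fun u hu => by simp [Half.fold, hu]
  have meas : ∀ (S : Finset (V × V)) (K : V × V → Ω × Ω → ℝ≥0∞), (∀ d, Measurable (K d)) →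
      Measurable fun ω : V → Ω => ∏ d ∈ S, K d (ω d.1, ω d.2) := fun S K hK =>
    Finset.measurable_prod _ fun d _ =>
      (hK d).comp ((measurable_pi_apply _).prodMk (measurable_pi_apply _))
  have dep : ∀ (K : V × V → Ω × Ω → ℝ≥0∞) (ω ω' : V → Ω), (∀ v, h.t v ∉ h.L → ω v = ω' v) →
      ∏ d ∈ DL, K d (ω d.1, ω d.2) = ∏ d ∈ DL, K d (ω' d.1, ω' d.2) := fun K ω ω' hω =>
    Finset.prod_congr rfl fun d hd => by rw [hω _ (nL d hd).1, hω _ (nL d hd).2]
  have key := reflection_positivity P hh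
    (A := fun ω => ∏ d ∈ DL, G d.1 d.2 (ω d.1, ω d.2))
    (B := fun ω => ∏ d ∈ DL, G (h.t d.1) (h.t d.2) (ω d.1, ω d.2))
    (C := fun ω => ∏ d ∈ DF, G d.1 d.2 (ω d.1, ω d.2))
    (meas _ (fun d => G d.1 d.2) fun d => mG _ _)
    (meas _ (fun d => G (h.t d.1) (h.t d.2)) fun d => mG _ _)
    (meas _ (fun d => G d.1 d.2) fun d => mG _ _)
    (dep fun d => G d.1 d.2) (dep fun d => G (h.t d.1) (h.t d.2))
    (fun ω ω' hω => Finset.prod_congr rfl fun d hd => by
      have := (Finset.mem_filter.1 hd).2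
      rw [hω _ this.1, hω _ this.2])
  have fixF : ∀ d ∈ DF, h.t d.1 = d.1 ∧ h.t d.2 = d.2 := fun d hd => (Finset.mem_filter.1 hd).2
  unfold Idens
  refine le_of_eq_of_le ?_ (key.trans_eq ?_)
  · congr 2
    funext ω
    exact split fun a b => G a b (ω a, ω b)
  · congr 2 <;> funext ω
    · rw [split fun a b => G (h.fold a) (h.fold b) (ω a, ω b)]
      refine congrArg₂ _ (congrArg₂ _ ?_ ?_) ?_
      · exact Finset.prod_congr rfl fun d hd => by rw [f1 _ (nL d hd).1, f1 _ (nL d hd).2]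
      · exact Finset.prod_congr rfl fun d hd => by rw [f2 _ (nL d hd).1, f2 _ (nL d hd).2]; rfl
      · exact Finset.prod_congr rfl fun d hd => by rw [f5 _ (fixF d hd).1, f5 _ (fixF d hd).2]
    · rw [split fun a b => G (h.flip.fold a) (h.flip.fold b) (ω a, ω b)]
      refine congrArg₂ _ (congrArg₂ _ ?_ ?_) ?_
      · exact Finset.prod_congr rfl fun d hd => by rw [f3 _ (nL d hd).1, f3 _ (nL d hd).2]
      · exact Finset.prod_congr rfl fun d hd => by rw [f4 _ (nL d hd).1, f4 _ (nL d hd).2]; rfl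
      · exact Finset.prod_congr rfl fun d hd => by rw [f6 _ (fixF d hd).1, f6 _ (fixF d hd).2]

theorem max_colouring {r : V → V → Prop} (hs : ∀ x y, r x y → r y x) {H : Set (Half V)}
    (hH : ∀ h ∈ H, IsFoldH r h) (D : Finset (V × V))
    (hD : ∀ h ∈ H, ∀ d ∈ D, (h.t d.1, h.t d.2) ∈ D) (hr : ∀ d ∈ D, r d.1 d.2)
    {m : V → V} (hm : FoldSeq H m) {v0 w0 : V} (hc : ∀ d ∈ D, m d.1 = v0 ∧ m d.2 = w0)
    {ι : Type} [Finite ι] (g : ι → Ω × Ω → ℝ≥0∞) (mg : ∀ i, Measurable (g i))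
    (hfin : ∀ χ : V → V → ι, Idens P D (fun a b => g (χ a b)) ≠ ∞)
    (h1 : ∀ i, Idens P D (fun _ _ => g i) ≤ 1) (χ : V → V → ι) :
    Idens P D (fun a b => g (χ a b)) ≤ 1 := by
  have : Nonempty (V → V → ι) := ⟨χ⟩
  obtain ⟨χ0, h0⟩ := Finite.exists_max fun χ : V → V → ι => Idens P D (fun a b => g (χ a b))
  set M := Idens P D (fun a b => g (χ0 a b)) with hM
  refine (h0 χ).trans ?_
  by_cases hM0 : M = 0
  · rw [hM0]; exact zero_le
  have key : ∀ m, FoldSeq H m → ∀ χ : V → V → ι, M ≤ Idens P D (fun a b => g (χ a b)) →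
      M ≤ Idens P D (fun a b => g (χ (m a) (m b))) := by
    intro m hm
    induction hm with
    | id => exact fun χ h => h
    | @step m h hh _ ih =>
      intro χ hχ
      refine ih (fun a b => χ (h.fold a) (h.fold b)) ?_
      have a1 := fold_ineq P hs (hH h hh) D (hD h hh) hr (fun a b => g (χ a b)) (fun _ _ => mg _)
      have a2 := h0 fun a b => χ (h.flip.fold a) (h.flip.fold b)
      have a3 : M * M ≤ Idens P D (fun a b => g (χ (h.fold a) (h.fold b))) * M :=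
        calc M * M ≤ Idens P D (fun a b => g (χ a b)) ^ 2 := by rw [sq]; gcongr
          _ ≤ _ := a1
          _ ≤ _ := by gcongr
      exact (ENNReal.mul_le_mul_iff_left hM0 (hfin χ0)).1 a3
  refine (key m hm χ0 le_rfl).trans (le_of_eq_of_le ?_ (h1 (χ0 v0 w0)))
  unfold Idens
  congr 1
  funext ω
  exact Finset.prod_congr rfl fun d hd => by simp only [(hc d hd).1, (hc d hd).2]

end Pool.Agent.P.MP_16ad8c_co
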