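import Pool.Agent.P.MP_16ad8c_co.DefsFold
import Pool.Agent.P.MP_16ad8c_co.Percolate
import Pool.Agent.P.MP_16ad8c_co.Reflect

namespace Pool.Agent.P.MP_16ad8c_co

open MeasureTheory ENNReal Relation Filter Topology

variable {V₁ V₂ : Type} [Fintype V₁] [Fintype V₂]

omit [Fintype V₁] [Fintype V₂] in
theorem graph_adj (E : Finset (V₁ × V₂)) (v : V₁) (w : V₂) :
    (graph E).Adj (Sum.inl v) (Sum.inr w) ↔ (v, w) ∈ E := by
  simp [graph]

omit [Fintype V₁] [Fintype V₂] in
theorem graph_side (E : Finset (V₁ × V₂)) (x y : V₁ ⊕ V₂) (h : (graph E).Adj x y) :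
    x.isLeft ≠ y.isLeft := by
  rcases x with x | x <;> rcases y with y | y <;> simp_all [graph]

theorem perc_graph {E : Finset (V₁ × V₂)} (hE : E.Nonempty) (hc : (graph E).Connected)
    (ht : EdgeTransitiveUnder E (Subgroup.closure {φ | IsFold E φ})) :
    ∃ m, FoldSeq (All (graph E).Adj Sum.isLeft) m ∧
      ∀ x y : V₁ ⊕ V₂, x.isLeft = y.isLeft → m x = m y := by
  have hs : ∀ x y, (graph E).Adj x y → (graph E).Adj y x := fun _ _ h => h.symm
  have osymm : ∀ x y, Orb (All (graph E).Adj Sum.isLeft) x y →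
      Orb (All (graph E).Adj Sum.isLeft) y x := by
    intro x y h
    induction h with
    | refl => exact ReflTransGen.refl
    | tail _ hb ih =>
      obtain ⟨u, hu, rfl⟩ := hb
      exact ReflTransGen.head ⟨u, hu, (hu.1.invol _).symm⟩ ih
  have orb : ∀ g ∈ Subgroup.closure {φ | IsFold E φ}, ∀ x,
      Orb (All (graph E).Adj Sum.isLeft) x (g x) := by
    intro g hg
    induction hg using Subgroup.closure_induction with
    | mem φ hφ =>
      obtain ⟨⟨⟨h1, h2⟩, h3, _⟩, L, l1, l2, l3⟩ := hφ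
      refine fold_orb (h := ⟨φ, L⟩) ⟨fun x => ?_, fun x y h => (h2 x y).2 h, l1, l2, l3⟩ h1 hs
      change φ (φ x) = x
      nth_rewrite 1 [h3]
      simp
    | one => exact fun x => ReflTransGen.refl
    | mul g k _ _ ig ik => exact fun x => (ik x).trans (ig (k x))
    | inv g _ ig => exact fun x => osymm _ _ (by simpa using ig (g⁻¹ x))
  have nb : ∀ x, ∃ y, (graph E).Adj x y := by
    intro x
    obtain ⟨e, he⟩ := hE
    have : ∃ y, x ≠ y := by
      rcases x with x | x
      · exact ⟨Sum.inr e.2, by simp⟩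
      · exact ⟨Sum.inl e.1, by simp⟩
    obtain ⟨y, hy⟩ := this
    obtain ⟨p⟩ := hc.preconnected x y
    cases p with
    | nil => exact absurd rfl hy
    | cons h _ => exact ⟨_, h⟩
  have nl : ∀ v, ∃ w, (v, w) ∈ E := by
    intro v
    obtain ⟨y | y, hy⟩ := nb (Sum.inl v)
    · exact (graph_side E _ _ hy rfl).elim
    · exact ⟨y, (graph_adj E _ _).1 hy⟩
  have nr : ∀ w, ∃ v, (v, w) ∈ E := by
    intro w
    obtain ⟨y | y, hy⟩ := nb (Sum.inr w)
    · exact ⟨y, (graph_adj E _ _).1 hy.symm⟩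
    · exact (graph_side E _ _ hy rfl).elim
  refine percolation hs (graph_side E)
    (fun x y => (SimpleGraph.reachable_iff_reflTransGen x y).1 (hc.preconnected x y)) ?_
  rintro (x | x) (y | y) hxy
  · obtain ⟨a, ha⟩ := nl x
    obtain ⟨b, hb⟩ := nl y
    obtain ⟨g, hg, e, _⟩ := ht _ ha _ hb
    exact e ▸ orb g hg _
  · simp at hxy
  · simp at hxy
  · obtain ⟨a, ha⟩ := nr x
    obtain ⟨b, hb⟩ := nr y
    obtain ⟨g, hg, _, e⟩ := ht _ ha _ hb
    exact e ▸ orb g hg _

variable {X Y : Type*} [MeasurableSpace X] [MeasurableSpace Y] (μ : Measure X) (ν : Measure Y)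
  [IsProbabilityMeasure μ] [IsProbabilityMeasure ν]

/-- decorated density -/
noncomputable def J (E : Finset (V₁ × V₂)) (f : V₁ × V₂ → X × Y → ℝ) : ℝ :=
  ∫ z : (V₁ → X) × (V₂ → Y), ∏ e ∈ E, f e (z.1 e.1, z.2 e.2)
    ∂((Measure.pi fun _ => μ).prod (Measure.pi fun _ => ν))

omit [Fintype V₁] [Fintype V₂] in
theorem meas_prod (E : Finset (V₁ × V₂)) {f : V₁ × V₂ → X × Y → ℝ} (hf : ∀ e, BddMeas (f e)) :
    Measurable fun z : (V₁ → X) × (V₂ → Y) => ∏ e ∈ E, f e (z.1 e.1, z.2 e.2) :=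
  Finset.measurable_prod _ fun e _ => (hf e).1.comp
    (((measurable_pi_apply _).comp measurable_fst).prodMk
      ((measurable_pi_apply _).comp measurable_snd))

theorem int_prod (E : Finset (V₁ × V₂)) {f : V₁ × V₂ → X × Y → ℝ} (hf : ∀ e, BddMeas (f e)) :
    Integrable (fun z : (V₁ → X) × (V₂ → Y) => ∏ e ∈ E, f e (z.1 e.1, z.2 e.2))
      ((Measure.pi fun _ => μ).prod (Measure.pi fun _ => ν)) := by
  choose C hC using fun e => (hf e).2
  refine Integrable.of_bound (meas_prod E hf).aestronglyMeasurable (∏ e ∈ E, C e)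
    (Eventually.of_forall fun z => ?_)
  rw [Real.norm_eq_abs, Finset.abs_prod]
  exact Finset.prod_le_prod (fun _ _ => abs_nonneg _) fun e _ => hC e _

omit [IsProbabilityMeasure μ] [IsProbabilityMeasure ν] in
theorem J_nonneg (E : Finset (V₁ × V₂)) {f : V₁ × V₂ → X × Y → ℝ} (hf : ∀ e p, 0 ≤ f e p) :
    0 ≤ J μ ν E f :=
  integral_nonneg fun _ => Finset.prod_nonneg fun e _ => hf e _

omit [IsProbabilityMeasure μ] [IsProbabilityMeasure ν] in
theorem J_smul (E : Finset (V₁ × V₂)) (c : V₁ × V₂ → ℝ) (f : V₁ × V₂ → X × Y → ℝ) :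
    J μ ν E (fun e p => c e * f e p) = (∏ e ∈ E, c e) * J μ ν E f := by
  unfold J
  simp only [Finset.prod_mul_distrib]
  rw [integral_const_mul]

def edgeEmb : V₁ × V₂ ↪ (V₁ ⊕ V₂) × (V₁ ⊕ V₂) :=
  ⟨fun e => (Sum.inl e.1, Sum.inr e.2), fun a b h => by
    simp only [Prod.mk.injEq, Sum.inl.injEq, Sum.inr.injEq] at h
    exact Prod.ext h.1 h.2⟩

theorem Idens_eq (E : Finset (V₁ × V₂)) (f : V₁ ⊕ V₂ → V₁ ⊕ V₂ → X × Y → ℝ)
    (hf : ∀ a b, BddMeas (f a b)) (h0 : ∀ a b p, 0 ≤ f a b p) :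
    Idens (μ.prod ν) (E.map edgeEmb) (fun a b p => ENNReal.ofReal (f a b (p.1.1, p.2.2))) =
      ENNReal.ofReal (J μ ν E fun e => f (Sum.inl e.1) (Sum.inr e.2)) := by
  have m1 := measurePreserving_sumPiEquivProdPi (X := fun _ : V₁ ⊕ V₂ => X × Y)
    (fun _ => μ.prod ν)
  have m2 := (measurePreserving_pi (fun _ : V₁ => μ.prod ν) (fun _ => μ)
    (f := fun _ => Prod.fst) fun _ => measurePreserving_fst).prod
    (measurePreserving_pi (fun _ : V₂ => μ.prod ν) (fun _ => ν)
      (f := fun _ => Prod.snd) fun _ => measurePreserving_snd)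
  have m := m2.comp m1
  rw [J, ofReal_integral_eq_lintegral_ofReal (int_prod μ ν E fun e => hf _ _)
    (Eventually.of_forall fun z => Finset.prod_nonneg fun e _ => h0 _ _ _),
    ← m.lintegral_comp (meas_prod E fun e => hf _ _).ennreal_ofReal, Idens]
  refine lintegral_congr fun ω => ?_
  rw [Finset.prod_map, ENNReal.ofReal_prod_of_nonneg fun e _ => h0 _ _ _]
  rfl

section

variable {E : Finset (V₁ × V₂)} (hE : E.Nonempty) (hc : (graph E).Connected)
  (ht : EdgeTransitiveUnder E (Subgroup.closure {φ | IsFold E φ}))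
include hE hc ht

theorem J_le_one {ι : Type} [Finite ι] (g : ι → X × Y → ℝ) (hg : ∀ i, BddMeas (g i))
    (h0 : ∀ i p, 0 ≤ g i p) (h1 : ∀ i, J μ ν E (fun _ => g i) ≤ 1) (c : V₁ × V₂ → ι) :
    J μ ν E (fun e => g (c e)) ≤ 1 := by
  obtain ⟨m, hm, hconst⟩ := perc_graph hE hc ht
  obtain ⟨e0, he0⟩ := hE
  have key := max_colouring (μ.prod ν) (r := (graph E).Adj) (fun _ _ h => h.symm)
    (H := All (graph E).Adj Sum.isLeft) (fun h hh => hh.1.toIsFoldH) (E.map edgeEmb) ?_ ?_ hm
    (v0 := m (Sum.inl e0.1)) (w0 := m (Sum.inr e0.2)) ?_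
    (fun i p => ENNReal.ofReal (g i (p.1.1, p.2.2))) ?_ ?_ ?_
    (fun a b => c (a.elim id (fun _ => e0.1), b.elim (fun _ => e0.2) id))
  · rw [Idens_eq μ ν E (fun a b => g (c (a.elim id (fun _ => e0.1), b.elim (fun _ => e0.2) id)))
      (fun _ _ => hg _) (fun _ _ => h0 _)] at key
    exact ENNReal.ofReal_le_one.1 key
  · intro h hh d hd
    obtain ⟨e, he, rfl⟩ := Finset.mem_map.1 hd
    have a1 := hh.1.aut _ _ ((graph_adj E e.1 e.2).2 he)
    have a2 := hh.2 (Sum.inl e.1)
    have a3 := hh.2 (Sum.inr e.2)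
    change (h.t (Sum.inl e.1), h.t (Sum.inr e.2)) ∈ _
    generalize h.t (Sum.inl e.1) = u at *
    generalize h.t (Sum.inr e.2) = w at *
    rcases u with u | u
    · rcases w with w | w
      · simp at a3
      · exact Finset.mem_map.2 ⟨(u, w), (graph_adj E _ _).1 a1, rfl⟩
    · simp at a2
  · intro d hd
    obtain ⟨e, he, rfl⟩ := Finset.mem_map.1 hd
    exact (graph_adj E e.1 e.2).2 he
  · intro d hd
    obtain ⟨e, he, rfl⟩ := Finset.mem_map.1 hd
    exact ⟨hconst _ _ rfl, hconst _ _ rfl⟩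
  · intro i
    exact ((hg i).1.comp (measurable_fst.fst.prodMk measurable_snd.snd)).ennreal_ofReal
  · intro χ
    rw [Idens_eq μ ν E (fun a b => g (χ a b)) (fun _ _ => hg _) (fun _ _ => h0 _)]
    exact ENNReal.ofReal_ne_top
  · intro i
    rw [Idens_eq μ ν E (fun _ _ => g i) (fun _ _ => hg _) (fun _ _ => h0 _)]
    exact ENNReal.ofReal_le_one.2 (h1 i)

theorem holder {ι : Type} [Finite ι] (g : ι → X × Y → ℝ) (hg : ∀ i, BddMeas (g i))
    (h0 : ∀ i p, 0 ≤ g i p) (c : V₁ × V₂ → ι) :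
    J μ ν E (fun e => g (c e)) ≤ ∏ e ∈ E, J μ ν E (fun _ => g (c e)) ^ (1 / (E.card : ℝ)) := by
  set N : ι → ℝ := fun i => J μ ν E (fun _ => g i) ^ (1 / (E.card : ℝ)) with hN
  have N0 : ∀ i, 0 ≤ N i := fun i => Real.rpow_nonneg (J_nonneg μ ν E fun _ => h0 i) _
  have Np : ∀ i, N i ^ E.card = J μ ν E (fun _ => g i) := fun i => by
    rw [hN, one_div]
    exact Real.rpow_inv_natCast_pow (J_nonneg μ ν E fun _ => h0 i) hE.card_pos.ne'
  have key : ∀ δ : ℝ, 0 < δ → J μ ν E (fun e => g (c e)) ≤ ∏ e ∈ E, (N (c e) + δ) := by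
    intro δ hδ
    have pos : ∀ i, 0 < N i + δ := fun i => by linarith [N0 i]
    have := J_le_one μ ν hE hc ht (fun i p => (N i + δ)⁻¹ * g i p) (fun i => by
        obtain ⟨hm, C, hC⟩ := hg i
        refine ⟨hm.const_mul _, |(N i + δ)⁻¹| * C, fun p => ?_⟩
        rw [abs_mul]
        exact mul_le_mul_of_nonneg_left (hC p) (abs_nonneg _))
      (fun i p => mul_nonneg (inv_nonneg.2 (pos i).le) (h0 i p)) (fun i => by
        rw [J_smul μ ν E (fun _ => (N i + δ)⁻¹) (fun _ => g i), Finset.prod_const, inv_pow,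
          inv_mul_le_iff₀ (pow_pos (pos i) _), mul_one, ← Np]
        exact pow_le_pow_left₀ (N0 i) (by linarith) _) c
    rw [J_smul μ ν E (fun e => (N (c e) + δ)⁻¹) (fun e => g (c e)), Finset.prod_inv_distrib,
      inv_mul_le_iff₀ (Finset.prod_pos fun e _ => pos _), mul_one] at this
    exact this
  have hcont : Continuous fun δ : ℝ => ∏ e ∈ E, (N (c e) + δ) := by fun_prop
  have ht : Tendsto (fun δ : ℝ => ∏ e ∈ E, (N (c e) + δ)) (𝓝[>] 0) (𝓝 (∏ e ∈ E, N (c e))) := by
    simpa using (hcont.tendsto 0).mono_left nhdsWithin_le_nhds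
  exact ge_of_tendsto ht (eventually_nhdsWithin_of_forall key)

theorem holder2 [DecidableEq V₁] [DecidableEq V₂] {e0 : V₁ × V₂} (he0 : e0 ∈ E)
    {f g : X × Y → ℝ} (hf : BddMeas f) (hg : BddMeas g) (f0 : ∀ p, 0 ≤ f p) (g0 : ∀ p, 0 ≤ g p) :
    J μ ν E (fun e => if e = e0 then f else g) ≤ J μ ν E (fun _ => f) ^ (1 / (E.card : ℝ)) *
      (J μ ν E (fun _ => g) ^ (1 / (E.card : ℝ))) ^ (E.card - 1) := by
  have := holder μ ν hE hc ht (fun b : Bool => if b then f else g)
    (fun b => by cases b <;> simpa) (fun b p => by cases b <;> simp [f0 p, g0 p])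
    (fun e => decide (e = e0))
  simp only [decide_eq_true_eq] at this
  refine this.trans_eq ?_
  rw [← Finset.mul_prod_erase E _ he0, if_pos rfl, ← Finset.card_erase_of_mem he0,
    ← Finset.prod_const]
  congr 1
  exact Finset.prod_congr rfl fun e he => by rw [if_neg (Finset.ne_of_mem_erase he)]

end

omit [Fintype V₁] [Fintype V₂] [MeasurableSpace X] [MeasurableSpace Y] in
theorem J_single [DecidableEq V₁] [DecidableEq V₂] {E : Finset (V₁ × V₂)} {e0 : V₁ × V₂}
    (he0 : e0 ∈ E) (f : X × Y → ℝ) (g : V₁ × V₂ → X × Y → ℝ) (z : (V₁ → X) × (V₂ → Y)) :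
    ∏ e ∈ E, (if e = e0 then f else g e) (z.1 e.1, z.2 e.2) =
      f (z.1 e0.1, z.2 e0.2) * ∏ e ∈ E.erase e0, g e (z.1 e.1, z.2 e.2) := by
  rw [← Finset.mul_prod_erase E _ he0, if_pos rfl]
  congr 1
  exact Finset.prod_congr rfl fun e he => by rw [if_neg (Finset.ne_of_mem_erase he)]

theorem mp_edge (e0 : V₁ × V₂) :
    MeasurePreserving (fun z : (V₁ → X) × (V₂ → Y) => (z.1 e0.1, z.2 e0.2))
      ((Measure.pi fun _ => μ).prod (Measure.pi fun _ => ν)) (μ.prod ν) :=
  (measurePreserving_eval (fun _ : V₁ => μ) e0.1).prod (measurePreserving_eval (fun _ : V₂ => ν) e0.2)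

theorem BddMeas.abs {Z : Type*} [MeasurableSpace Z] {W : Z → ℝ} (h : BddMeas W) :
    BddMeas fun p => |W p| := by
  obtain ⟨hm, C, hC⟩ := h
  exact ⟨hm.abs, C, fun p => by simpa using hC p⟩

theorem BddMeas.add {Z : Type*} [MeasurableSpace Z] {W W' : Z → ℝ} (h : BddMeas W)
    (h' : BddMeas W') : BddMeas (W + W') := by
  obtain ⟨hm, C, hC⟩ := h
  obtain ⟨hm', C', hC'⟩ := h'
  exact ⟨hm.add hm', C + C', fun p => (abs_add_le _ _).trans (add_le_add (hC p) (hC' p))⟩

theorem isNormOn {E : Finset (V₁ × V₂)} (hE : E.Nonempty) (hc : (graph E).Connected)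
    (ht : EdgeTransitiveUnder E (Subgroup.closure {φ | IsFold E φ})) : IsNormOn E μ ν := by
  classical
  have hcard : (0 : ℝ) < E.card := by exact_mod_cast hE.card_pos
  have hroot : ∀ W : X × Y → ℝ, rootDensity E μ ν W =
      J μ ν E (fun _ p => |W p|) ^ (1 / (E.card : ℝ)) := fun _ => rfl
  have Jn : ∀ W : X × Y → ℝ, 0 ≤ J μ ν E (fun _ p => |W p|) :=
    fun W => J_nonneg μ ν E fun _ _ => abs_nonneg _
  have congr_ae : ∀ W W' : X × Y → ℝ, W =ᵐ[μ.prod ν] W' →
      rootDensity E μ ν W = rootDensity E μ ν W' := by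
    intro W W' h
    rw [hroot, hroot]
    congr 1
    refine integral_congr_ae ?_
    have : ∀ᵐ z ∂((Measure.pi fun _ : V₁ => μ).prod (Measure.pi fun _ : V₂ => ν)), ∀ e : V₁ × V₂,
        W (z.1 e.1, z.2 e.2) = W' (z.1 e.1, z.2 e.2) :=
      ae_all_iff.2 fun e => (mp_edge μ ν e).quasiMeasurePreserving.ae_eq_comp h
    filter_upwards [this] with z hz
    exact Finset.prod_congr rfl fun e _ => by rw [hz e]
  obtain ⟨e0, he0⟩ := id hE
  refine ⟨fun W W' _ _ => congr_ae W W', ?_, ?_, ?_⟩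
  · intro W W' hW hW'
    have hS := (hW.add hW').abs
    set N := rootDensity E μ ν (W + W') with hN
    have N0 : 0 ≤ N := Real.rpow_nonneg (Jn _) _
    have Np : N ^ E.card = J μ ν E (fun _ p => |(W + W') p|) := by
      rw [hN, hroot, one_div]
      exact Real.rpow_inv_natCast_pow (Jn _) hE.card_pos.ne'
    have a1 := holder2 μ ν hE hc ht he0 hW.abs hS (fun _ => abs_nonneg _) (fun _ => abs_nonneg _)
    have a2 := holder2 μ ν hE hc ht he0 hW'.abs hS (fun _ => abs_nonneg _) (fun _ => abs_nonneg _)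
    rw [← hroot, ← hroot, ← hN] at a1 a2
    have bm : ∀ U : X × Y → ℝ, BddMeas U → ∀ e : V₁ × V₂,
        BddMeas (if e = e0 then (fun p => |U p|) else fun p => |(W + W') p|) := by
      intro U hU e
      split_ifs
      · exact hU.abs
      · exact hS
    have a3 : J μ ν E (fun _ p => |(W + W') p|) ≤
        J μ ν E (fun e => if e = e0 then (fun p => |W p|) else fun p => |(W + W') p|) +
        J μ ν E (fun e => if e = e0 then (fun p => |W' p|) else fun p => |(W + W') p|) := by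
      unfold J
      rw [← integral_add (int_prod μ ν E (bm W hW)) (int_prod μ ν E (bm W' hW'))]
      refine integral_mono (int_prod μ ν E fun _ => hS)
        ((int_prod μ ν E (bm W hW)).add (int_prod μ ν E (bm W' hW'))) fun z => ?_
      simp only
      rw [J_single he0 _ (fun _ p => |(W + W') p|), J_single he0 _ (fun _ p => |(W + W') p|),
        ← add_mul, ← Finset.mul_prod_erase E _ he0]
      exact mul_le_mul_of_nonneg_right (abs_add_le _ _)
        (Finset.prod_nonneg fun _ _ => abs_nonneg _)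
    have r1 : 0 ≤ rootDensity E μ ν W := Real.rpow_nonneg (Jn _) _
    have r2 : 0 ≤ rootDensity E μ ν W' := Real.rpow_nonneg (Jn _) _
    rcases N0.eq_or_lt with h0 | h0
    · rw [← h0]; positivity
    have a4 : N * N ^ (E.card - 1) ≤
        (rootDensity E μ ν W + rootDensity E μ ν W') * N ^ (E.card - 1) := by
      rw [← pow_succ', Nat.sub_add_cancel hE.card_pos, Np, add_mul]
      linarith
    exact le_of_mul_le_mul_right a4 (pow_pos h0 _)
  · intro c W _
    rw [hroot, hroot]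
    have : (fun (_ : V₁ × V₂) p => |(c • W) p|) = fun _ p => |c| * |W p| := by
      funext _ p
      simp [abs_mul]
    rw [this, J_smul μ ν E (fun _ => |c|) (fun _ p => |W p|), Finset.prod_const,
      Real.mul_rpow (by positivity) (Jn W), one_div,
      Real.pow_rpow_inv_natCast (abs_nonneg c) hE.card_pos.ne']
  · intro W hW
    refine ⟨Real.rpow_nonneg (Jn _) _, fun h0 => ?_, fun h => ?_⟩
    · have h1 : BddMeas fun _ : X × Y => (1 : ℝ) := ⟨measurable_const, 1, fun _ => by simp⟩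
      have a1 := holder2 μ ν hE hc ht he0 hW.abs h1 (fun _ => abs_nonneg _) (fun _ => zero_le_one)
      rw [← hroot, h0, zero_mul] at a1
      have a2 : J μ ν E (fun e => if e = e0 then (fun p => |W p|) else fun _ => (1 : ℝ)) =
          ∫ p, |W p| ∂(μ.prod ν) := by
        unfold J
        rw [← (mp_edge μ ν e0).map_eq, integral_map (mp_edge μ ν e0).measurable.aemeasurable
          hW.abs.1.aestronglyMeasurable]
        refine integral_congr_ae (Eventually.of_forall fun z => ?_)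
        simp only
        rw [J_single he0 _ (fun _ _ => (1 : ℝ))]
        simp
      rw [a2] at a1
      obtain ⟨hm, C, hC⟩ := hW
      have hint : Integrable (fun p => |W p|) (μ.prod ν) :=
        Integrable.of_bound hm.abs.aestronglyMeasurable C
          (Eventually.of_forall fun p => by simpa using hC p)
      have := (integral_eq_zero_iff_of_nonneg (fun p => abs_nonneg (W p)) hint).1
        (le_antisymm a1 (integral_nonneg fun p => abs_nonneg _))
      filter_upwards [this] with p hp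
      simpa using hp
    · rw [congr_ae W 0 h, hroot]
      have : J μ ν E (fun _ p => |(0 : X × Y → ℝ) p|) = 0 := by
        unfold J
        simp [hE.card_pos.ne']
      rw [this, Real.zero_rpow (by positivity)]

end Pool.Agent.P.MP_16ad8c_co
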