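import Pool.Agent.P.MP_16ad8c_co.Defs

namespace Pool.Agent.P.MP_16ad8c_co

variable {V₁ V₂ : Type} [Fintype V₁] [Fintype V₂]

/-- A cut-involution: an involutive automorphism whose fixed-point set is a vertex-cut. -/
def IsCutInvolution (E : Finset (V₁ × V₂)) (φ : Equiv.Perm (V₁ ⊕ V₂)) : Prop :=
  IsAut E φ ∧ φ = φ⁻¹ ∧ ¬ ((graph E).induce {u | φ u ≠ u}).Preconnected

end Pool.Agent.P.MP_16ad8c_co
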