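import Pool.Agent.P.MP_16ad8c_co.Fano
import Pool.Agent.P.MP_16ad8c_co.DefsCut

namespace Pool.Agent.P.MP_16ad8c_co

open Finset

abbrev Vx := Fin 7 ⊕ Fin 14

def adjB (u v : Vx) : Prop :=
  match u, v with
  | Sum.inl a, Sum.inr w => (a, w) ∈ fano
  | Sum.inr w, Sum.inl a => (a, w) ∈ fano
  | _, _ => False

instance : DecidableRel adjB := fun u v => by
  unfold adjB
  rcases u with a | a <;> rcases v with b | b <;> infer_instance

theorem adj_iff (u v : Vx) : (graph fano).Adj u v ↔ adjB u v := by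
  rcases u with a | a <;> rcases v with b | b <;> simp [graph, adjB]

def pa : Fin 3 → Fin 7 → Fin 7 :=
  ![![0, 1, 4, 3, 2, 6, 5], ![0, 3, 2, 1, 5, 4, 6], ![2, 1, 0, 4, 3, 5, 6]]

def pb : Fin 3 → Fin 14 → Fin 14 :=
  ![![7, 1, 3, 2, 6, 5, 4, 0, 8, 10, 9, 13, 12, 11],
    ![0, 2, 1, 5, 4, 3, 13, 7, 9, 8, 12, 11, 10, 6],
    ![1, 0, 4, 3, 2, 12, 6, 8, 7, 11, 10, 9, 5, 13]]

/-- the axis of the elation -/
def ax : Fin 3 → Fin 14 := ![0, 6, 5]

theorem invol (i : Fin 3) : Function.Involutive (Sum.map (pa i) (pb i) : Vx → Vx) := by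
  revert i
  unfold Function.Involutive
  decide +kernel

def gen (i : Fin 3) : Equiv.Perm Vx := (invol i).toPerm

theorem gen_apply (i : Fin 3) (u : Vx) : gen i u = Sum.map (pa i) (pb i) u := rfl

theorem not_preconnected {V : Type} (G : SimpleGraph V) (S : Set V) (u v : V) (hu : u ∈ S)
    (hv : v ∈ S) (huv : u ≠ v) (h : ∀ w, G.Adj u w → w ∉ S) : ¬ (G.induce S).Preconnected := by
  intro hp
  obtain ⟨p⟩ := hp ⟨u, hu⟩ ⟨v, hv⟩
  cases p with
  | nil => exact huv rfl
  | cons hadj _ => exact h _ hadj (Subtype.property _)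

theorem gen_cut (i : Fin 3) : IsCutInvolution fano (gen i) := by
  refine ⟨⟨?_, ?_⟩, ?_, ?_⟩
  · intro u
    rcases u with a | a <;> rfl
  · intro u v
    rw [adj_iff, adj_iff, gen_apply, gen_apply]
    revert i u v
    decide +kernel
  · rfl
  · refine not_preconnected _ _ (Sum.inr (ax i)) (Sum.inr (pb i (ax i))) ?_ ?_ ?_ ?_
    · simp only [Set.mem_ofPred_eq, gen_apply]
      revert i
      decide +kernel
    · simp only [Set.mem_ofPred_eq, gen_apply]
      revert i
      decide +kernel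
    · revert i
      decide +kernel
    · intro w
      rw [adj_iff]
      simp only [Set.mem_ofPred_eq, gen_apply]
      revert i w
      decide +kernel

def orb : ℕ → Finset (Fin 7 × Fin 14)
  | 0 => {(0, 0)}
  | n + 1 => orb n ∪ (Finset.univ.biUnion fun i => (orb n).image fun e => (pa i e.1, pb i e.2))

theorem orb_spec (n : ℕ) : ∀ e ∈ orb n, ∃ g ∈ Subgroup.closure {φ | IsCutInvolution fano φ},
    g (Sum.inl 0) = Sum.inl e.1 ∧ g (Sum.inr 0) = Sum.inr e.2 := by
  induction n with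
  | zero =>
    intro e he
    simp only [orb, Finset.mem_singleton] at he
    subst he
    exact ⟨1, Subgroup.one_mem _, rfl, rfl⟩
  | succ n ih =>
    intro e he
    simp only [orb, Finset.mem_union, Finset.mem_biUnion, Finset.mem_univ, true_and,
      Finset.mem_image] at he
    rcases he with he | ⟨i, f, hf, rfl⟩
    · exact ih e he
    · obtain ⟨g, hg, h1, h2⟩ := ih f hf
      refine ⟨gen i * g, Subgroup.mul_mem _ (Subgroup.subset_closure (gen_cut i)) hg, ?_, ?_⟩
      · rw [Equiv.Perm.mul_apply, h1]; rfl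
      · rw [Equiv.Perm.mul_apply, h2]; rfl

theorem fano_sub : ∀ e ∈ fano, e ∈ orb 6 := by decide +kernel

theorem fano_trans :
    EdgeTransitiveUnder fano (Subgroup.closure {φ | IsCutInvolution fano φ}) := by
  intro e he f hf
  obtain ⟨g, hg, g1, g2⟩ := orb_spec 6 e (fano_sub e he)
  obtain ⟨k, hk, k1, k2⟩ := orb_spec 6 f (fano_sub f hf)
  refine ⟨k * g⁻¹, Subgroup.mul_mem _ hk (Subgroup.inv_mem _ hg), ?_, ?_⟩
  · rw [← g1, ← k1]; simp
  · rw [← g2, ← k2]; simp

theorem fano_connected : (graph fano).Connected := by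
  have h1 : ∀ a : Fin 7, (graph fano).Reachable (Sum.inl 0) (Sum.inl a) := by
    intro a
    have : ∃ w : Fin 14, adjB (Sum.inl 0) (Sum.inr w) ∧ adjB (Sum.inr w) (Sum.inl a) := by
      revert a
      decide +kernel
    obtain ⟨w, w1, w2⟩ := this
    exact ((adj_iff _ _).2 w1).reachable.trans ((adj_iff _ _).2 w2).reachable
  have h2 : ∀ u : Vx, (graph fano).Reachable (Sum.inl 0) u := by
    intro u
    rcases u with a | w
    · exact h1 a
    · have : ∃ a : Fin 7, adjB (Sum.inl a) (Sum.inr w) := by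
        revert w
        decide +kernel
      obtain ⟨a, ha⟩ := this
      exact (h1 a).trans ((adj_iff _ _).2 ha).reachable
  exact ⟨fun u v => (h2 u).symm.trans (h2 v)⟩

end Pool.Agent.P.MP_16ad8c_co
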