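import Pool.Agent.P.MP_16ad8c_co.Gallery

namespace Pool.Agent.P.MP_16ad8c_co

open Relation

variable {V : Type} {r : V → V → Prop} {H : Set (Half V)}

def Pres (H : Set (Half V)) (g : Equiv.Perm V) : Prop :=
  ∀ h ∈ H, h.act g ∈ H ∧ h.act g⁻¹ ∈ H

theorem Simple.inv_eq (hH : IsSys r H) {π : List V} {g : Equiv.Perm V} (hg : Simple H π g) :
    g⁻¹ = g := by
  obtain ⟨⟨s, hs, rfl⟩, _⟩ := hg
  exact (hH.elem s hs).inv_eq

theorem IsSys.pres (hH : IsSys r H) {s : Half V} (hs : s ∈ H) : Pres H s.t := fun h hh =>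
  ⟨hH.conj_mem s hs h hh, by rw [(hH.elem s hs).inv_eq]; exact hH.conj_mem s hs h hh⟩

theorem Simple.pres (hH : IsSys r H) {π : List V} {g : Equiv.Perm V} (hg : Simple H π g) :
    Pres H g := by
  obtain ⟨⟨s, hs, rfl⟩, _⟩ := hg
  exact hH.pres hs

theorem pres_prod (hH : IsSys r H) {π : List V} (w : List (Equiv.Perm V))
    (hw : ∀ g ∈ w, Simple H π g) : Pres H w.prod := by
  induction w with
  | nil => intro h hh; simpa [Half.act_one] using hh
  | cons g w ih =>
    have h1 := (hw g List.mem_cons_self).pres hH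
    have h2 := ih fun k hk => hw k (List.mem_cons_of_mem _ hk)
    intro h hh
    rw [List.prod_cons, mul_inv_rev, Half.act_mul, Half.act_mul]
    exact ⟨(h1 _ (h2 h hh).1).1, (h2 _ (h1 h hh).2).2⟩

theorem Eqv.map {π π' : List V} {g : Equiv.Perm V} (hg : Pres H g) (e : Eqv H π π') :
    Eqv H (π.map g) (π'.map g) := fun h hh => by
  rw [pos_map, pos_map]
  exact e _ (hg h hh).2

theorem map_mul_perm (π : List V) (g k : Equiv.Perm V) :
    π.map (g * k : Equiv.Perm V) = (π.map k).map g := by
  simp

theorem word_of_gal (hH : IsSys r H) {π0 π : List V} (g : Gal H π0 π) :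
    ∃ w : List (Equiv.Perm V), (∀ g ∈ w, Simple H π0 g) ∧ Eqv H (π0.map w.prod) π := by
  induction g with
  | refl => exact ⟨[], by simp, fun h _ => by simp⟩
  | @tail π π' _ st ih =>
    obtain ⟨w, hw, e⟩ := ih
    rcases st.2 with e' | ⟨g, hg, e'⟩
    · exact ⟨w, hw, e.trans e'⟩
    have pa := pres_prod hH w hw
    have pg := hg.pres hH
    have key : w.prod * (w.prod⁻¹ * g * w.prod) = g * w.prod := by group
    refine ⟨w ++ [w.prod⁻¹ * g * w.prod], ?_, ?_⟩
    · intro k hk
      rcases List.mem_append.1 hk with hk | hk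
      · exact hw k hk
      rw [List.mem_singleton] at hk
      subst hk
      obtain ⟨⟨s, hs, rfl⟩, h2⟩ := hg
      refine ⟨⟨s.act w.prod⁻¹, (pa s hs).2, by simp⟩, fun h hh hne => ?_⟩
      have hk := (pa h hh).1
      have hne' : (h.act w.prod).t ≠ s.t := fun e2 => hne (by
        rw [← e2, Half.act_t]; group)
      rw [← pos_act w.prod h π0, e _ hk, h2 _ hk hne', ← (e.map pg) _ hk, ← map_mul_perm, ← key,
        map_mul_perm, pos_act]
    · rw [List.prod_append, List.prod_singleton, key, map_mul_perm]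
      exact (e.map pg).trans e'

theorem exchange (hH : IsSys r H) {π0 : List V} (w : List (Equiv.Perm V)) :
    (∀ g ∈ w, Simple H π0 g) → ∀ h ∈ H, ¬ (Pos h π0 ↔ Pos h (π0.map w.prod)) →
      ∃ w' : List (Equiv.Perm V), (∀ g ∈ w', Simple H π0 g) ∧ w'.length + 1 = w.length ∧
        h.t * w.prod = w'.prod := by
  induction w with
  | nil => intro _ h _ hD; simp at hD
  | cons g w ih =>
    intro hw h hh hD
    have hg := hw g List.mem_cons_self
    have hw' : ∀ k ∈ w, Simple H π0 k := fun k hk => hw k (List.mem_cons_of_mem _ hk)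
    by_cases e : h.t = g
    · refine ⟨w, hw', rfl, ?_⟩
      rw [List.prod_cons, ← mul_assoc, ← e, (hH.elem h hh).mul_self, one_mul]
    · rw [hg.2 h hh e, List.prod_cons, map_mul_perm, pos_map, pos_map g] at hD
      obtain ⟨w', h1, h2, h3⟩ := ih hw' _ (hg.pres hH h hh).2 hD
      refine ⟨g :: w', ?_, by simp [h2], ?_⟩
      · intro k hk
        rcases List.mem_cons.1 hk with rfl | hk
        · exact hg
        · exact h1 k hk
      · rw [List.prod_cons, List.prod_cons, ← h3, Half.act_t]
        group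

/-- the closed chamber -/
def Cl (H : Set (Half V)) (π : List V) (y : V) : Prop := ∀ h ∈ H, y ∈ h.L → Pos h π

theorem Cl.map {π : List V} {y : V} {g : Equiv.Perm V} (hg : Pres H g) (c : Cl H π y) :
    Cl H (π.map g) (g y) := fun h hh hy => by
  rw [pos_map]
  exact c _ (hg h hh).2 (by simpa using hy)

theorem cl_head (π : List V) (y : V) : Cl H (y :: π) y := fun _ _ hy => Or.inl hy

theorem fund (hH : IsSys r H) {π0 : List V} (hπ : Full π0) {x : V} (hx : Cl H π0 x) (n : ℕ) :
    ∀ w : List (Equiv.Perm V), w.length ≤ n → (∀ g ∈ w, Simple H π0 g) →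
      Cl H π0 (w.prod x) → w.prod x = x := by
  induction n with
  | zero =>
    intro w hn _ _
    rw [List.length_eq_zero_iff.1 (Nat.le_zero.1 hn)]
    rfl
  | succ n ih =>
    intro w hn hw hy
    rcases w with _ | ⟨g, w⟩
    · rfl
    have hw' : ∀ k ∈ w, Simple H π0 k := fun k hk => hw k (List.mem_cons_of_mem _ hk)
    have hy' := hx.map (pres_prod hH _ hw)
    obtain ⟨⟨s, hs, rfl⟩, _⟩ := hw g List.mem_cons_self
    have es := hH.elem s hs
    by_cases hD : Pos s π0 ↔ Pos s (π0.map (s.t :: w).prod)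
    · rw [List.prod_cons, map_mul_perm, pos_map, es.inv_eq, es.act_self,
        pos_flip es (hπ.map _)] at hD
      obtain ⟨w', h1, h2, h3⟩ := exchange hH w hw' s hs (by tauto)
      rw [List.prod_cons, h3] at hy ⊢
      exact ih w' (by simp at hn; omega) h1 hy
    · have hfix : s.t ((s.t :: w).prod x) = (s.t :: w).prod x := by
        by_contra hne
        apply hD
        rcases es.cover _ hne with h1 | h1
        · exact iff_of_true (hy s hs h1) (hy' s hs h1)
        · have a := hy _ (hH.flip_mem s hs) h1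
          have b := hy' _ (hH.flip_mem s hs) h1
          rw [pos_flip es hπ] at a
          rw [pos_flip es (hπ.map _)] at b
          exact iff_of_false a b
      have e : (s.t :: w).prod x = w.prod x := by
        rw [← hfix, List.prod_cons, Equiv.Perm.mul_apply, es.invol]
      rw [e] at hy ⊢
      exact ih w (by simp at hn; omega) hw' hy

/-- orbits of the group generated by the folds -/
def Orb (H : Set (Half V)) : V → V → Prop := ReflTransGen fun a b => ∃ h ∈ H, b = h.t a

section

variable [Finite V] (hs : ∀ x y, r x y → r y x) (hH : IsSys r H) (hN : NSW H)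
include hs hH hN

theorem exists_word {π0 π : List V} (h0 : Full π0) (hπ : Full π) :
    ∃ w : List (Equiv.Perm V), (∀ g ∈ w, Simple H π0 g) ∧ Eqv H (π0.map w.prod) π :=
  word_of_gal hH (gal_all hs _ H le_rfl hH hN π0 π h0 hπ)

theorem refl_word {π0 : List V} (h0 : Full π0) {u : Half V} (hu : u ∈ H) :
    ∃ w : List (Equiv.Perm V), (∀ g ∈ w, Simple H π0 g) ∧ w.prod = u.t := by
  obtain ⟨w, hw, e⟩ := exists_word hs hH hN h0 (h0.map u.t)
  have eu := hH.elem u hu
  obtain ⟨w', h1, _, h3⟩ := exchange hH w hw u hu (by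
    rw [e u hu, pos_map, eu.inv_eq, eu.act_self, pos_flip eu h0]
    tauto)
  refine ⟨w' ++ w.reverse, ?_, ?_⟩
  · intro g hg
    rcases List.mem_append.1 hg with hg | hg
    · exact h1 g hg
    · exact hw g (List.mem_reverse.1 hg)
  · have : w.reverse.prod = w.prod⁻¹ := by
      rw [List.prod_inv_reverse, List.map_congr_left (g := id) fun g hg => (hw g hg).inv_eq hH]
      simp
    rw [List.prod_append, this, ← h3]
    group

theorem fund' {π0 : List V} (h0 : Full π0) {x y : V} (hx : Cl H π0 x) (hy : Cl H π0 y)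
    (ho : Orb H x y) : y = x := by
  have : ∃ w : List (Equiv.Perm V), (∀ g ∈ w, Simple H π0 g) ∧ w.prod x = y := by
    clear hy
    induction ho with
    | refl => exact ⟨[], by simp, rfl⟩
    | tail _ hb ih =>
      obtain ⟨w, hw, e⟩ := ih
      obtain ⟨u, hu, rfl⟩ := hb
      obtain ⟨w', hw', e'⟩ := refl_word hs hH hN h0 hu
      refine ⟨w' ++ w, ?_, by rw [List.prod_append, Equiv.Perm.mul_apply, e, e']⟩
      intro g hg
      rcases List.mem_append.1 hg with hg | hg
      · exact hw' g hg
      · exact hw g hg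
  obtain ⟨w, hw, rfl⟩ := this
  exact fund hH h0 hx _ w le_rfl hw hy

end

/-- distance from the chamber of `π0` -/
noncomputable def len (H : Set (Half V)) (π0 : List V) (y : V) : ℕ :=
  sInf {n | ∃ w : List (Equiv.Perm V), (∀ g ∈ w, Simple H π0 g) ∧ w.length = n ∧
    Cl H (π0.map w.prod) y}

open Classical in
/-- the folding map onto the half -/
noncomputable def Half.fold (h : Half V) (y : V) : V := if h.t y ∈ h.L then h.t y else y

inductive FoldSeq (H : Set (Half V)) : (V → V) → Prop
  | id : FoldSeq H id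
  | step {m : V → V} {h : Half V} : h ∈ H → FoldSeq H m → FoldSeq H (h.fold ∘ m)

section

variable [Finite V] (hs : ∀ x y, r x y → r y x) (hH : IsSys r H) (hN : NSW H)
include hs hH hN

theorem len_lt {π0 : List V} (h0 : Full π0) {h : Half V} (hh : h ∈ H) (hp : Pos h π0) {y : V}
    (hy : h.t y ∈ h.L) : len H π0 (h.t y) < len H π0 y := by
  have hne : {n | ∃ w : List (Equiv.Perm V), (∀ g ∈ w, Simple H π0 g) ∧ w.length = n ∧
      Cl H (π0.map w.prod) y}.Nonempty := by
    obtain ⟨w, hw, e⟩ := exists_word hs hH hN h0 (h0.cons y)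
    exact ⟨w.length, w, hw, rfl, fun k hk hy => (e k hk).2 (cl_head π0 y k hk hy)⟩
  obtain ⟨w, hw, hl, hc⟩ := Nat.sInf_mem hne
  have eh := hH.elem h hh
  obtain ⟨w', h1, h2, h3⟩ := exchange hH w hw h hh (by
    have := hc _ (hH.flip_mem h hh) hy
    rw [pos_flip eh (h0.map _)] at this
    tauto)
  have h4 : len H π0 (h.t y) ≤ w'.length := Nat.sInf_le ⟨w', h1, rfl, by
    rw [← h3, map_mul_perm]
    exact hc.map (hH.pres hh)⟩
  have h5 : len H π0 y = w.length := hl.symm
  omega

theorem not_cl {π0 : List V} (h0 : Full π0) {y : V} (hy : ¬ Cl H π0 y) :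
    ∃ k ∈ H, Pos k π0 ∧ k.t y ∈ k.L := by
  unfold Cl at hy
  push Not at hy
  obtain ⟨h, hh, a, b⟩ := hy
  have eh := hH.elem h hh
  exact ⟨h.flip, hH.flip_mem h hh, (pos_flip eh h0).2 b, by simpa [eh.invol] using a⟩

theorem exists_fold_all {π0 : List V} (h0 : Full π0) :
    ∃ m, FoldSeq H m ∧ (∀ y, Orb H y (m y)) ∧ ∀ y, Cl H π0 (m y) := by
  have := Fintype.ofFinite V
  have key : ∀ n, ∀ m, FoldSeq H m → (∀ y, Orb H y (m y)) → ∑ y, len H π0 (m y) < n →
      ∃ m, FoldSeq H m ∧ (∀ y, Orb H y (m y)) ∧ ∀ y, Cl H π0 (m y) := by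
    intro n
    induction n with
    | zero => intro m _ _ h; omega
    | succ n ih =>
      intro m hm ho hn
      by_cases hall : ∀ y, Cl H π0 (m y)
      · exact ⟨m, hm, ho, hall⟩
      push Not at hall
      obtain ⟨y, hy⟩ := hall
      obtain ⟨k, hk, kp, ky⟩ := not_cl hs hH hN h0 hy
      refine ih (k.fold ∘ m) (hm.step hk) (fun z => ?_) ?_
      · simp only [Function.comp, Half.fold]
        split_ifs
        · exact (ho z).tail ⟨k, hk, rfl⟩
        · exact ho z
      · have : ∑ z, len H π0 ((k.fold ∘ m) z) < ∑ z, len H π0 (m z) := by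
          refine Finset.sum_lt_sum (fun z _ => ?_) ⟨y, Finset.mem_univ _, ?_⟩
          · simp only [Function.comp, Half.fold]
            split_ifs with hz
            · exact (len_lt hs hH hN h0 hk kp hz).le
            · exact le_rfl
          · simp only [Function.comp, Half.fold, if_pos ky]
            exact len_lt hs hH hN h0 hk kp ky
        omega
  exact key _ id FoldSeq.id (fun _ => ReflTransGen.refl) (Nat.lt_succ_self _)

/-- a map in the folding monoid which is constant on orbits -/
theorem exists_fold_const :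
    ∃ m, FoldSeq H m ∧ ∀ x y, Orb H x y → m y = m x := by
  have := Fintype.ofFinite V
  have h0 : Full (Finset.univ : Finset V).toList := fun x => by simp
  obtain ⟨m, hm, ho, hc⟩ := exists_fold_all hs hH hN h0
  have osymm : ∀ x y, Orb H x y → Orb H y x := by
    intro x y h
    induction h with
    | refl => exact ReflTransGen.refl
    | tail _ hb ih =>
      obtain ⟨u, hu, rfl⟩ := hb
      exact ReflTransGen.head ⟨u, hu, ((hH.elem u hu).invol _).symm⟩ ih
  exact ⟨m, hm, fun x y h => fund' hs hH hN h0 (hc x) (hc y)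
    (((osymm _ _ (ho x)).trans h).trans (ho y))⟩

/-- local transitivity -/
theorem local_trans {w v v' : V} (hv : r w v) (hv' : r w v') (ho : Orb H v v') :
    ReflTransGen (fun a b => ∃ h ∈ H, h.t w = w ∧ b = h.t a) v' v := by
  have := Fintype.ofFinite V
  have h0 : Full (w :: v :: (Finset.univ : Finset V).toList) := fun x => by simp
  set π0 := w :: v :: (Finset.univ : Finset V).toList with hπ0
  have cw : Cl H π0 w := cl_head _ _
  have cv : Cl H π0 v := by
    intro h hh hv1
    rcases (hH.elem h hh).cut v hv1 w (hs _ _ hv) with h1 | h1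
    · exact Or.inl h1
    · exact Or.inr ⟨h1, Or.inl hv1⟩
  have key : ∀ n, ∀ y, len H π0 y < n → r w y → Orb H v y →
      ReflTransGen (fun a b => ∃ h ∈ H, h.t w = w ∧ b = h.t a) y v := by
    intro n
    induction n with
    | zero => intro y h; omega
    | succ n ih =>
      intro y hn hr hy
      by_cases hc : Cl H π0 y
      · rw [fund' hs hH hN h0 cv hc hy]
      obtain ⟨k, hk, kp, ky⟩ := not_cl hs hH hN h0 hc
      have ek := hH.elem k hk
      have kw : k.t w = w := by
        by_contra hne
        rcases ek.cover w hne with h1 | h1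
        · exact ek.no_edge h1 ky hr
        · exact not_pos_both ek.toIsFoldH π0 kp (cw _ (hH.flip_mem k hk) h1)
      have hl := len_lt hs hH hN h0 hk kp ky
      refine ReflTransGen.head ⟨k, hk, kw, rfl⟩ (ih _ (by omega) ?_ (hy.tail ⟨k, hk, rfl⟩))
      simpa [kw] using ek.aut _ _ hr
  exact key _ v' (Nat.lt_succ_self _) hv' ho

end

end Pool.Agent.P.MP_16ad8c_co
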