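import Mathlib

namespace Pool.Agent.P.MP_16ad8c_co

open MeasureTheory

variable {V₁ V₂ : Type} [Fintype V₁] [Fintype V₂]

/-- The underlying simple graph of the bigraph with sides `V₁`, `V₂` and edge set `E`. -/
def graph (E : Finset (V₁ × V₂)) : SimpleGraph (V₁ ⊕ V₂) :=
  SimpleGraph.fromRel fun a b => ∃ e ∈ E, a = Sum.inl e.1 ∧ b = Sum.inr e.2

/-- The density `t(G, W)`. -/
noncomputable def density (E : Finset (V₁ × V₂)) {X Y : Type*} [MeasurableSpace X]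
    [MeasurableSpace Y] (μ : Measure X) (ν : Measure Y) (W : X × Y → ℝ) : ℝ :=
  ∫ z : (V₁ → X) × (V₂ → Y), ∏ e ∈ E, W (z.1 e.1, z.2 e.2)
    ∂((Measure.pi fun _ => μ).prod (Measure.pi fun _ => ν))

/-- The functional `t(G, |W|) ^ (1 / e(G))`. -/
noncomputable def rootDensity (E : Finset (V₁ × V₂)) {X Y : Type*} [MeasurableSpace X]
    [MeasurableSpace Y] (μ : Measure X) (ν : Measure Y) (W : X × Y → ℝ) : ℝ :=
  density E μ ν (fun p => |W p|) ^ (1 / (E.card : ℝ))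

/-- Bounded measurable real functions. -/
def BddMeas {Z : Type*} [MeasurableSpace Z] (W : Z → ℝ) : Prop :=
  Measurable W ∧ ∃ C : ℝ, ∀ p, |W p| ≤ C

/-- Graph automorphisms that keep the two sides. -/
def IsAut (E : Finset (V₁ × V₂)) (φ : Equiv.Perm (V₁ ⊕ V₂)) : Prop :=
  (∀ u, (φ u).isLeft = u.isLeft) ∧ ∀ u v, (graph E).Adj (φ u) (φ v) ↔ (graph E).Adj u v

/-- Edge-transitivity under a group of permutations of the vertices. -/
def EdgeTransitiveUnder (E : Finset (V₁ × V₂)) (Γ : Subgroup (Equiv.Perm (V₁ ⊕ V₂))) : Prop :=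
  ∀ e ∈ E, ∀ f ∈ E, ∃ g ∈ Γ, g (Sum.inl e.1) = Sum.inl f.1 ∧ g (Sum.inr e.2) = Sum.inr f.2

end Pool.Agent.P.MP_16ad8c_co
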