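import Pool.Agent.P.MP_16ad8c_co.DefsCut

namespace Pool.Agent.P.MP_16ad8c_co

open MeasureTheory

variable {V₁ V₂ : Type} [Fintype V₁] [Fintype V₂]

/-- A cut-involution that swaps two halves: `(L, Fix φ, φ L)` is a partition of the vertices and
`L` is a union of components of `G - Fix φ`. -/
def IsFold (E : Finset (V₁ × V₂)) (φ : Equiv.Perm (V₁ ⊕ V₂)) : Prop :=
  IsCutInvolution E φ ∧ ∃ L : Set (V₁ ⊕ V₂), (∀ u ∈ L, φ u ∉ L) ∧
    (∀ u, φ u ≠ u → u ∈ L ∨ φ u ∈ L) ∧ ∀ u ∈ L, ∀ v, (graph E).Adj u v → v ∈ L ∨ φ v = v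

/-- `W ↦ t(G, |W|) ^ (1 / e(G))` is a norm on bounded measurable functions modulo a.e. equality. -/
def IsNormOn (E : Finset (V₁ × V₂)) {X Y : Type*} [MeasurableSpace X] [MeasurableSpace Y]
    (μ : Measure X) (ν : Measure Y) : Prop :=
  (∀ W W' : X × Y → ℝ, BddMeas W → BddMeas W' → W =ᵐ[μ.prod ν] W' →
    rootDensity E μ ν W = rootDensity E μ ν W') ∧
  (∀ W W' : X × Y → ℝ, BddMeas W → BddMeas W' →
    rootDensity E μ ν (W + W') ≤ rootDensity E μ ν W + rootDensity E μ ν W') ∧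
  (∀ (c : ℝ) (W : X × Y → ℝ), BddMeas W →
    rootDensity E μ ν (c • W) = |c| * rootDensity E μ ν W) ∧
  (∀ W : X × Y → ℝ, BddMeas W → 0 ≤ rootDensity E μ ν W ∧
    (rootDensity E μ ν W = 0 ↔ W =ᵐ[μ.prod ν] 0))

end Pool.Agent.P.MP_16ad8c_co
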