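import Pool.Agent.P.MP_16ad8c_co.Defs

namespace Pool.Agent.P.MP_16ad8c_co

open MeasureTheory ProbabilityTheory unitInterval Finset

variable {V₁ V₂ : Type} [Fintype V₁] [Fintype V₂] [DecidableEq V₁] [DecidableEq V₂]

/-- normalised discrete density of an edge-indexed family of matrices -/
noncomputable def T (E : Finset (V₁ × V₂)) {α β : Type} [Fintype α] [Fintype β]
    (f : V₁ × V₂ → α → β → ℝ) : ℝ :=
  (∑ x : V₁ → α, ∑ y : V₂ → β, ∏ e ∈ E, f e (x e.1) (y e.2)) /
    ((Fintype.card α : ℝ) ^ Fintype.card V₁ * (Fintype.card β : ℝ) ^ Fintype.card V₂)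

theorem exists_mp (α : Type) [Fintype α] [Nonempty α] [MeasurableSpace α]
    [DiscreteMeasurableSpace α] :
    ∃ π : I → α, MeasurePreserving π volume (uniformOn (Set.univ : Set α)) := by
  have : IsProbabilityMeasure (uniformOn (Set.univ : Set α)) :=
    isProbabilityMeasure_uniformOn Set.finite_univ Set.univ_nonempty
  obtain ⟨f, hf, hm⟩ := Measure.exists_measurable_map_eq (uniformOn (Set.univ : Set α))
  exact ⟨f, hf, hm⟩

theorem density_step (E : Finset (V₁ × V₂)) {α β : Type} [Fintype α] [Fintype β] [Nonempty α]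
    [Nonempty β] [MeasurableSpace α] [DiscreteMeasurableSpace α] [MeasurableSpace β]
    [DiscreteMeasurableSpace β] {π : I → α} {ρ : I → β}
    (hπ : MeasurePreserving π volume (uniformOn (Set.univ : Set α)))
    (hρ : MeasurePreserving ρ volume (uniformOn (Set.univ : Set β))) (A : α → β → ℝ) :
    density E (volume : Measure I) (volume : Measure I) (fun p => A (π p.1) (ρ p.2)) =
      T E (fun _ => A) := by
  have : IsProbabilityMeasure (uniformOn (Set.univ : Set α)) :=
    isProbabilityMeasure_uniformOn Set.finite_univ Set.univ_nonempty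
  have : IsProbabilityMeasure (uniformOn (Set.univ : Set β)) :=
    isProbabilityMeasure_uniformOn Set.finite_univ Set.univ_nonempty
  have h1 := measurePreserving_pi (fun _ : V₁ => (volume : Measure I))
    (fun _ : V₁ => uniformOn (Set.univ : Set α)) (f := fun _ => π) (fun _ => hπ)
  have h2 := measurePreserving_pi (fun _ : V₂ => (volume : Measure I))
    (fun _ : V₂ => uniformOn (Set.univ : Set β)) (f := fun _ => ρ) (fun _ => hρ)
  have h := h1.prod h2
  set F : (V₁ → α) × (V₂ → β) → ℝ := fun z => ∏ e ∈ E, A (z.1 e.1) (z.2 e.2) with hF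
  have hFm : Measurable F := measurable_of_finite F
  have key : density E (volume : Measure I) (volume : Measure I) (fun p => A (π p.1) (ρ p.2)) =
      ∫ z, F z ∂((Measure.pi fun _ : V₁ => uniformOn (Set.univ : Set α)).prod
        (Measure.pi fun _ : V₂ => uniformOn (Set.univ : Set β))) := by
    rw [← h.map_eq, integral_map h.measurable.aemeasurable hFm.aestronglyMeasurable]
    rfl
  rw [key, integral_fintype (Integrable.of_finite), Fintype.sum_prod_type, T, Finset.sum_div]
  refine Finset.sum_congr rfl fun x _ => ?_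
  rw [Finset.sum_div]
  refine Finset.sum_congr rfl fun y _ => ?_
  have hs : ({(x, y)} : Set ((V₁ → α) × (V₂ → β))) = {x} ×ˢ {y} := by simp
  rw [hs, measureReal_def, Measure.prod_prod, Measure.pi_singleton, Measure.pi_singleton]
  simp only [uniformOn_univ, Measure.count_singleton, Finset.prod_const, Finset.card_univ,
    ENNReal.toReal_mul, ENNReal.toReal_pow, ENNReal.toReal_inv,
    ENNReal.toReal_natCast, smul_eq_mul, hF, one_div, inv_pow]
  have ha : (Fintype.card α : ℝ) ≠ 0 := by positivity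
  have hb : (Fintype.card β : ℝ) ≠ 0 := by positivity
  field_simp

/-- the triangle inequality on the unit square -/
def Tri (E : Finset (V₁ × V₂)) : Prop :=
  ∀ W W' : I × I → ℝ, BddMeas W → BddMeas W' →
    rootDensity E (volume : Measure I) (volume : Measure I) (W + W') ≤
      rootDensity E (volume : Measure I) (volume : Measure I) W +
        rootDensity E (volume : Measure I) (volume : Measure I) W'

theorem T_nonneg (E : Finset (V₁ × V₂)) {α β : Type} [Fintype α] [Fintype β]
    {f : V₁ × V₂ → α → β → ℝ} (hf : ∀ e a b, 0 ≤ f e a b) : 0 ≤ T E f := by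
  unfold T
  refine div_nonneg (Finset.sum_nonneg fun x _ => Finset.sum_nonneg fun y _ =>
    Finset.prod_nonneg fun e _ => hf _ _ _) (by positivity)

theorem T_mono (E : Finset (V₁ × V₂)) {α β : Type} [Fintype α] [Fintype β]
    {f g : V₁ × V₂ → α → β → ℝ} (hf : ∀ e a b, 0 ≤ f e a b) (hfg : ∀ e a b, f e a b ≤ g e a b) :
    T E f ≤ T E g := by
  unfold T
  refine div_le_div_of_nonneg_right (Finset.sum_le_sum fun x _ => Finset.sum_le_sum fun y _ =>
    Finset.prod_le_prod (fun e _ => hf _ _ _) (fun e _ => hfg _ _ _)) (by positivity)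

theorem T_smul (E : Finset (V₁ × V₂)) {α β : Type} [Fintype α] [Fintype β]
    (c : V₁ × V₂ → ℝ) (f : V₁ × V₂ → α → β → ℝ) :
    T E (fun e a b => c e * f e a b) = (∏ e ∈ E, c e) * T E f := by
  unfold T
  simp only [Finset.prod_mul_distrib, ← Finset.mul_sum, mul_div_assoc]

theorem T_tensor (E : Finset (V₁ × V₂)) {α β α' β' : Type} [Fintype α] [Fintype β] [Fintype α']
    [Fintype β'] (f : V₁ × V₂ → α → β → ℝ) (g : V₁ × V₂ → α' → β' → ℝ) :
    T E (fun e (a : α × α') (b : β × β') => f e a.1 b.1 * g e a.2 b.2) = T E f * T E g := by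
  unfold T
  rw [div_mul_div_comm]
  congr 1
  · rw [← (Equiv.arrowProdEquivProdArrow V₁ (fun _ => α) (fun _ => α')).symm.sum_comp,
      Fintype.sum_prod_type, Finset.sum_mul_sum]
    refine Finset.sum_congr rfl fun x _ => Finset.sum_congr rfl fun x' _ => ?_
    rw [← (Equiv.arrowProdEquivProdArrow V₂ (fun _ => β) (fun _ => β')).symm.sum_comp,
      Fintype.sum_prod_type, Finset.sum_mul_sum]
    refine Finset.sum_congr rfl fun y _ => Finset.sum_congr rfl fun y' _ => ?_
    rw [← Finset.prod_mul_distrib]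
    rfl
  · simp only [Fintype.card_prod, Nat.cast_mul, mul_pow]
    ring

theorem tri_discrete {E : Finset (V₁ × V₂)} (h : Tri E) {α β : Type} [Fintype α] [Fintype β]
    [Nonempty α] [Nonempty β] (A B : α → β → ℝ) (hA : ∀ a b, 0 ≤ A a b) (hB : ∀ a b, 0 ≤ B a b) :
    T E (fun _ a b => A a b + B a b) ^ (1 / (E.card : ℝ)) ≤
      T E (fun _ => A) ^ (1 / (E.card : ℝ)) + T E (fun _ => B) ^ (1 / (E.card : ℝ)) := by
  let : MeasurableSpace α := ⊤
  let : MeasurableSpace β := ⊤
  obtain ⟨π, hπ⟩ := exists_mp α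
  obtain ⟨ρ, hρ⟩ := exists_mp β
  have hb : ∀ C : α → β → ℝ, BddMeas (fun p : I × I => C (π p.1) (ρ p.2)) := by
    intro C
    refine ⟨?_, ∑ a, ∑ b, |C a b|, fun p => ?_⟩
    · have h1 : Measurable (fun q : α × β => C q.1 q.2) := measurable_of_finite _
      exact h1.comp ((hπ.measurable.comp measurable_fst).prodMk
        (hρ.measurable.comp measurable_snd))
    · calc |C (π p.1) (ρ p.2)| ≤ ∑ b, |C (π p.1) b| :=
            Finset.single_le_sum (f := fun b => |C (π p.1) b|) (fun _ _ => abs_nonneg _)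
              (Finset.mem_univ _)
        _ ≤ ∑ a, ∑ b, |C a b| :=
            Finset.single_le_sum (f := fun a => ∑ b, |C a b|)
              (fun _ _ => Finset.sum_nonneg fun _ _ => abs_nonneg _) (Finset.mem_univ _)
  have key := h _ _ (hb A) (hb B)
  have e : ∀ C : α → β → ℝ, (∀ a b, 0 ≤ C a b) →
      rootDensity E (volume : Measure I) (volume : Measure I) (fun p => C (π p.1) (ρ p.2)) =
        T E (fun _ => C) ^ (1 / (E.card : ℝ)) := by
    intro C hC
    rw [rootDensity, ← density_step E hπ hρ C]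
    simp only [abs_of_nonneg (hC _ _)]
  rw [e A hA, e B hB] at key
  rw [← e (fun a b => A a b + B a b) (fun a b => add_nonneg (hA a b) (hB a b))]
  exact key

theorem bound3 {E : Finset (V₁ × V₂)} (h : Tri E) (hE : E.Nonempty) (c : V₁ × V₂ → Fin 3)
    {α β : Type} [Fintype α] [Fintype β] [Nonempty α] [Nonempty β] (f : Fin 3 → α → β → ℝ)
    (hf : ∀ i a b, 0 ≤ f i a b) (h1 : ∀ i, T E (fun _ => f i) ≤ 1) :
    T E (fun e => f (c e)) ≤ 3 ^ E.card := by
  have hcard : (0 : ℝ) < E.card := by exact_mod_cast hE.card_pos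
  have hr : ∀ i, T E (fun _ => f i) ^ (1 / (E.card : ℝ)) ≤ 1 := fun i =>
    Real.rpow_le_one (T_nonneg E fun _ => hf i) (h1 i) (by positivity)
  have a1 := tri_discrete h (f 0) (f 1) (hf 0) (hf 1)
  have a2 := tri_discrete h (fun a b => f 0 a b + f 1 a b) (f 2)
    (fun a b => add_nonneg (hf 0 a b) (hf 1 a b)) (hf 2)
  have a3 : T E (fun _ a b => f 0 a b + f 1 a b + f 2 a b) ^ (1 / (E.card : ℝ)) ≤ 3 := by
    linarith [hr 0, hr 1, hr 2]
  have hn : 0 ≤ T E (fun _ a b => f 0 a b + f 1 a b + f 2 a b) :=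
    T_nonneg E fun _ a b => add_nonneg (add_nonneg (hf 0 a b) (hf 1 a b)) (hf 2 a b)
  have a4 : T E (fun _ a b => f 0 a b + f 1 a b + f 2 a b) ≤ 3 ^ E.card := by
    have := pow_le_pow_left₀ (Real.rpow_nonneg hn _) a3 E.card
    rwa [one_div, Real.rpow_inv_natCast_pow hn hE.card_pos.ne'] at this
  refine le_trans (T_mono E (fun e => hf _) fun e a b => ?_) a4
  have := hf 0 a b
  have := hf 1 a b
  have := hf 2 a b
  generalize c e = i
  fin_cases i <;> simp <;> linarith

theorem bound_pow {E : Finset (V₁ × V₂)} (h : Tri E) (hE : E.Nonempty) (c : V₁ × V₂ → Fin 3)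
    (k : ℕ) : ∀ (α β : Type) [Fintype α] [Fintype β] [Nonempty α] [Nonempty β]
      (f : Fin 3 → α → β → ℝ), (∀ i a b, 0 ≤ f i a b) → (∀ i, T E (fun _ => f i) ≤ 1) →
      T E (fun e => f (c e)) ^ (2 ^ k) ≤ 3 ^ E.card := by
  induction k with
  | zero => intro α β _ _ _ _ f hf h1; simpa using bound3 h hE c f hf h1
  | succ k ih =>
    intro α β _ _ _ _ f hf h1
    have := ih (α × α) (β × β) (fun i a b => f i a.1 b.1 * f i a.2 b.2)
      (fun i a b => mul_nonneg (hf _ _ _) (hf _ _ _)) (fun i => by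
        rw [T_tensor E (fun _ => f i) (fun _ => f i)]
        exact mul_le_one₀ (h1 i) (T_nonneg E fun _ => hf i) (h1 i))
    rw [T_tensor E (fun e => f (c e)) (fun e => f (c e))] at this
    rw [pow_succ, mul_comm, pow_mul, sq]
    exact this

theorem holder_one {E : Finset (V₁ × V₂)} (h : Tri E) (hE : E.Nonempty) (c : V₁ × V₂ → Fin 3)
    {α β : Type} [Fintype α] [Fintype β] [Nonempty α] [Nonempty β]
    (f : Fin 3 → α → β → ℝ) (hf : ∀ i a b, 0 ≤ f i a b) (h1 : ∀ i, T E (fun _ => f i) ≤ 1) :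
    T E (fun e => f (c e)) ≤ 1 := by
  by_contra hlt
  push Not at hlt
  obtain ⟨k, hk⟩ := pow_unbounded_of_one_lt ((3 : ℝ) ^ E.card) hlt
  have h2 := bound_pow h hE c k α β f hf h1
  have h3 : T E (fun e => f (c e)) ^ k ≤ T E (fun e => f (c e)) ^ (2 ^ k) :=
    pow_le_pow_right₀ hlt.le Nat.lt_two_pow_self.le
  linarith

/-- Hoelder inequality, in power form. -/
theorem holder_pow {E : Finset (V₁ × V₂)} (h : Tri E) (hE : E.Nonempty) (c : V₁ × V₂ → Fin 3)
    {α β : Type} [Fintype α] [Fintype β] [Nonempty α] [Nonempty β]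
    (f : Fin 3 → α → β → ℝ) (hf : ∀ i a b, 0 ≤ f i a b) (hpos : ∀ i, 0 < T E (fun _ => f i)) :
    T E (fun e => f (c e)) ^ E.card ≤ ∏ e ∈ E, T E (fun _ => f (c e)) := by
  set s : Fin 3 → ℝ := fun i => (T E (fun _ => f i) ^ ((E.card : ℝ)⁻¹))⁻¹ with hs
  have hs0 : ∀ i, 0 < s i := fun i => inv_pos.2 (Real.rpow_pos_of_pos (hpos i) _)
  have hsp : ∀ i, s i ^ E.card = (T E (fun _ => f i))⁻¹ := fun i => by
    rw [hs]
    simp only [inv_pow]
    rw [Real.rpow_inv_natCast_pow (hpos i).le hE.card_pos.ne']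
  have key := holder_one h hE c (fun i a b => s i * f i a b)
    (fun i a b => mul_nonneg (hs0 i).le (hf i a b)) (fun i => by
      rw [T_smul E (fun _ => s i) (fun _ => f i), Finset.prod_const, hsp,
        inv_mul_cancel₀ (hpos i).ne'])
  rw [T_smul E (fun e => s (c e)) (fun e => f (c e))] at key
  have hn : 0 ≤ T E (fun e => f (c e)) := T_nonneg E fun e => hf _
  have k2 := pow_le_pow_left₀ (mul_nonneg (Finset.prod_nonneg fun e _ => (hs0 _).le) hn) key
    E.card
  rw [one_pow, mul_pow, ← Finset.prod_pow] at k2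
  simp only [hsp, Finset.prod_inv_distrib] at k2
  have hp : 0 < ∏ e ∈ E, T E (fun _ => f (c e)) := Finset.prod_pos fun e _ => hpos _
  rwa [inv_mul_le_iff₀ hp, mul_one] at k2

/-- Summing out the right-hand variables. -/
theorem sum_right (E : Finset (V₁ × V₂)) {β : Type} [Fintype β] {R : Type} [CommSemiring R]
    (F : V₁ × V₂ → β → R) :
    ∑ y : V₂ → β, ∏ e ∈ E, F e (y e.2) =
      ∏ w : V₂, ∑ s : β, ∏ v ∈ Finset.univ.filter (fun v => (v, w) ∈ E), F (v, w) s := by
  rw [Finset.prod_univ_sum, Fintype.piFinset_univ]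
  refine Finset.sum_congr rfl fun y _ => ?_
  rw [Finset.prod_sigma' Finset.univ (fun w => Finset.univ.filter (fun v => (v, w) ∈ E))
    (fun w v => F (v, w) (y w))]
  refine Finset.prod_bij' (fun e _ => ⟨e.2, e.1⟩) (fun e _ => (e.2, e.1)) ?_ ?_ ?_ ?_ ?_ <;> simp

end Pool.Agent.P.MP_16ad8c_co
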