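import Pool.Agent.P.MP_16ad8c_co.Discrete

namespace Pool.Agent.P.MP_16ad8c_co

open Finset

/-- the three points of the line with index `w` (lines `w` and `w + 7` are twins) -/
def ln (w : Fin 14) (j : Fin 3) : Fin 7 :=
  ⟨(w.val + (if j.val = 0 then 0 else if j.val = 1 then 1 else 3)) % 7, Nat.mod_lt _ (by norm_num)⟩

/-- the Fano plane with every line doubled -/
def fano : Finset (Fin 7 × Fin 14) := Finset.univ.filter fun e => ∃ j, ln e.2 j = e.1

def col (e : Fin 7 × Fin 14) : Fin 3 :=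
  if e.1.val = 0 then 0 else if e.2.val % 7 = 0 ∨ e.2.val % 7 = 4 ∨ e.2.val % 7 = 6 then 1 else 2

def mat (i : Fin 3) (a s : Fin 3) : ℕ :=
  if a.val = 0 then (if s.val = 0 then 6 else if s.val = 1 then 1 else 0)
  else if a.val = 1 then (if s.val = 0 then 1 else if s.val = 1 then 2 else
    if i.val = 2 then 1 else 0)
  else (if s.val = 1 ∧ i.val = 0 then 2 else 0)

def val (c : Fin 7 × Fin 14 → Fin 3) : ℕ :=
  ∑ x : Fin 7 → Fin 3, ∏ w : Fin 14, ∑ s : Fin 3, ∏ j : Fin 3, mat (c (ln w j, w)) (x (ln w j)) s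

theorem sum7 {α : Type} [Fintype α] (G : (Fin 7 → α) → ℕ) :
    ∑ x, G x = ∑ a0, ∑ a1, ∑ a2, ∑ a3, ∑ a4, ∑ a5, ∑ a6, G ![a0, a1, a2, a3, a4, a5, a6] := by
  have step : ∀ (n : ℕ) (H : (Fin (n + 1) → α) → ℕ),
      ∑ x, H x = ∑ a, ∑ y : Fin n → α, H (Matrix.vecCons a y) := by
    intro n H
    rw [← (Fin.consEquiv (fun _ : Fin (n + 1) => α)).sum_comp, Fintype.sum_prod_type]
    rfl
  simp only [step, Fintype.sum_unique]
  rfl

def uu (i k l : Fin 3) (a b d : Fin 3) : ℕ :=
  mat i a 0 * (mat k b 0 * mat l d 0) + (mat i a 1 * (mat k b 1 * mat l d 1) +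
    mat i a 2 * (mat k b 2 * mat l d 2))

def val' (i k l : Fin 3) : ℕ :=
  ∑ a0 : Fin 3, ∑ a1 : Fin 3, ∑ a2 : Fin 3, ∑ a3 : Fin 3, ∑ a4 : Fin 3, ∑ a5 : Fin 3, ∑ a6 : Fin 3,
    (uu i k k a0 a1 a3 * uu l l l a1 a2 a4 * uu l l l a2 a3 a5 * uu l l l a3 a4 a6 *
      uu k k i a4 a5 a0 * uu l l l a5 a6 a1 * uu k i k a6 a0 a2) ^ 2

theorem val_eq (c : Fin 7 × Fin 14 → Fin 3) (i k l : Fin 3)
    (h : ∀ w j, c (ln w j, w) = ![i, k, l] (col (ln w j, w))) : val c = val' i k l := by
  unfold val val'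
  rw [sum7]
  refine Finset.sum_congr rfl fun a0 _ => Finset.sum_congr rfl fun a1 _ =>
    Finset.sum_congr rfl fun a2 _ => Finset.sum_congr rfl fun a3 _ =>
    Finset.sum_congr rfl fun a4 _ => Finset.sum_congr rfl fun a5 _ =>
    Finset.sum_congr rfl fun a6 _ => ?_
  have e : ∏ w : Fin 14, ∑ s : Fin 3, ∏ j : Fin 3,
      mat (c (ln w j, w)) (![a0, a1, a2, a3, a4, a5, a6] (ln w j)) s =
      uu i k k a0 a1 a3 * (uu l l l a1 a2 a4 * (uu l l l a2 a3 a5 * (uu l l l a3 a4 a6 *
      (uu k k i a4 a5 a0 * (uu l l l a5 a6 a1 * (uu k i k a6 a0 a2 *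
      (uu i k k a0 a1 a3 * (uu l l l a1 a2 a4 * (uu l l l a2 a3 a5 * (uu l l l a3 a4 a6 *
      (uu k k i a4 a5 a0 * (uu l l l a5 a6 a1 * uu k i k a6 a0 a2)))))))))))) := by
    simp only [h, Fin.prod_univ_succ, Fin.sum_univ_succ, Fin.prod_univ_zero, Fin.sum_univ_zero,
      mul_one, add_zero]
    rfl
  rw [e]
  ring

theorem val_col : val col = 513480490064678741014293726161297 := by
  rw [val_eq col 0 1 2 (by decide)]
  decide +kernel
theorem val_0 : val (fun _ => 0) = 513480490065920306504709044287746 := by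
  rw [val_eq _ 0 0 0 (by decide)]
  decide +kernel
theorem val_1 : val (fun _ => 1) = 513480490063666909096250720368450 := by
  rw [val_eq _ 1 1 1 (by decide)]
  decide +kernel
theorem val_2 : val (fun _ => 2) = 513480490064874264960456603309137 := by
  rw [val_eq _ 2 2 2 (by decide)]
  decide +kernel

theorem filter_fano (w : Fin 14) :
    Finset.univ.filter (fun v => (v, w) ∈ fano) = Finset.univ.image (ln w) := by
  ext v
  simp [fano]

theorem ln_inj : ∀ w, Function.Injective (ln w) := by decide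

theorem T_fano (c : Fin 7 × Fin 14 → Fin 3) :
    T fano (fun e a s => (mat (c e) a s : ℝ)) = (val c : ℝ) / (3 ^ 7 * 3 ^ 14) := by
  unfold T
  have hd : ((Fintype.card (Fin 3) : ℝ) ^ Fintype.card (Fin 7) *
      (Fintype.card (Fin 3) : ℝ) ^ Fintype.card (Fin 14)) = 3 ^ 7 * 3 ^ 14 := by simp
  rw [hd]
  congr 1
  · unfold val
    push_cast
    refine Finset.sum_congr rfl fun x _ => ?_
    rw [sum_right fano (fun e s => (mat (c e) (x e.1) s : ℝ))]
    refine Finset.prod_congr rfl fun w _ => Finset.sum_congr rfl fun s _ => ?_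
    rw [filter_fano, Finset.prod_image (fun a _ b _ h => ln_inj w h)]

theorem fano_card : fano.card = 42 := by decide +kernel

theorem prod_col (t : Fin 3 → ℝ) : ∏ e ∈ fano, t (col e) = t 0 ^ 6 * t 1 ^ 12 * t 2 ^ 24 := by
  rw [← Finset.prod_fiberwise_of_maps_to (s := fano) (t := Finset.univ) (g := col)
    (fun _ _ => Finset.mem_univ _), Fin.prod_univ_three]
  have h : ∀ i, ∏ e ∈ fano.filter (fun e => col e = i), t (col e) =
      t i ^ (fano.filter (fun e => col e = i)).card := by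
    intro i
    rw [← Finset.prod_const]
    refine Finset.prod_congr rfl fun e he => ?_
    rw [(Finset.mem_filter.1 he).2]
  have h0 : (fano.filter (fun e => col e = 0)).card = 6 := by decide +kernel
  have h1 : (fano.filter (fun e => col e = 1)).card = 12 := by decide +kernel
  have h2 : (fano.filter (fun e => col e = 2)).card = 24 := by decide +kernel
  rw [h, h, h, h0, h1, h2]

theorem not_tri : ¬ Tri fano := by
  intro h
  have hE : fano.Nonempty := Finset.card_pos.1 (by rw [fano_card]; norm_num)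
  have h0 := T_fano (fun _ => 0)
  have h1 := T_fano (fun _ => 1)
  have h2 := T_fano (fun _ => 2)
  have hc := T_fano col
  rw [val_0] at h0
  rw [val_1] at h1
  rw [val_2] at h2
  rw [val_col] at hc
  have key := holder_pow h hE col (fun i a s => (mat i a s : ℝ)) (fun _ _ _ => by positivity)
    (fun i => by
      fin_cases i
      · exact h0 ▸ (by norm_num)
      · exact h1 ▸ (by norm_num)
      · exact h2 ▸ (by norm_num))
  rw [prod_col (fun i => T fano (fun _ a s => (mat i a s : ℝ))), fano_card, hc, h0, h1, h2] at key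
  revert key
  norm_num

end Pool.Agent.P.MP_16ad8c_co
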