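import Pool.Agent.P.MP_16ad8c_co.Half

namespace Pool.Agent.P.MP_16ad8c_co

open Relation

variable {V : Type} {r : V → V → Prop} {H : Set (Half V)}

/-- the first vertex of the list off the wall lies in the half -/
def Pos (h : Half V) : List V → Prop
  | [] => False
  | x :: π => x ∈ h.L ∨ (h.t x = x ∧ Pos h π)

def Full (π : List V) : Prop := ∀ x, x ∈ π

theorem Full.cons {π : List V} (h : Full π) (v : V) : Full (v :: π) :=
  fun x => List.mem_cons_of_mem _ (h x)

theorem Full.map {π : List V} (h : Full π) (g : Equiv.Perm V) : Full (π.map g) := fun x =>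
  List.mem_map.2 ⟨g⁻¹ x, h _, by simp⟩

theorem pos_act (g : Equiv.Perm V) (h : Half V) (π : List V) :
    Pos (h.act g) (π.map g) ↔ Pos h π := by
  induction π with
  | nil => simp [Pos]
  | cons x π ih => simp [Pos, ih]

theorem pos_map (g : Equiv.Perm V) (h : Half V) (π : List V) :
    Pos h (π.map g) ↔ Pos (h.act g⁻¹) π := by
  rw [← pos_act g (h.act g⁻¹), ← Half.act_mul, mul_inv_cancel, Half.act_one]

theorem not_pos_both {h : Half V} (hh : IsFoldH r h) (π : List V) :
    Pos h π → ¬ Pos h.flip π := by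
  induction π with
  | nil => simp [Pos]
  | cons x π ih =>
    rintro (h1 | ⟨h1, h2⟩) (h3 | ⟨h3, h4⟩)
    · exact hh.swap x h1 h3
    · exact hh.notfix h1 h3
    · exact hh.notfix' h3 h1
    · exact ih h2 h4

theorem pos_or {h : Half V} (hh : IsFoldH r h) (π : List V) (hx : ∃ x ∈ π, h.t x ≠ x) :
    Pos h π ∨ Pos h.flip π := by
  induction π with
  | nil => simp at hx
  | cons x π ih =>
    by_cases e : h.t x = x
    · obtain ⟨y, hy, hy'⟩ := hx
      rcases List.mem_cons.1 hy with rfl | hy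
      · exact absurd e hy'
      · rcases ih ⟨y, hy, hy'⟩ with h1 | h1
        · exact Or.inl (Or.inr ⟨e, h1⟩)
        · exact Or.inr (Or.inr ⟨e, h1⟩)
    · rcases hh.cover x e with h1 | h1
      · exact Or.inl (Or.inl h1)
      · exact Or.inr (Or.inl h1)

theorem pos_flip {h : Half V} (hh : IsElem r h) {π : List V} (hπ : Full π) :
    Pos h.flip π ↔ ¬ Pos h π := by
  obtain ⟨x, hx⟩ := hh.ne
  refine ⟨fun h1 h2 => not_pos_both hh.toIsFoldH π h2 h1, fun h1 => ?_⟩
  exact (pos_or hh.toIsFoldH π ⟨x, hπ x, hh.notfix hx⟩).resolve_left h1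

def Eqv (H : Set (Half V)) (π π' : List V) : Prop := ∀ h ∈ H, Pos h π ↔ Pos h π'

theorem Eqv.symm {π π' : List V} (e : Eqv H π π') : Eqv H π' π := fun h hh => (e h hh).symm

theorem Eqv.trans {π π' π'' : List V} (e : Eqv H π π') (e' : Eqv H π' π'') : Eqv H π π'' :=
  fun h hh => (e h hh).trans (e' h hh)

/-- `s` is a simple reflection for the chamber of `π` -/
def Simple (H : Set (Half V)) (π : List V) (g : Equiv.Perm V) : Prop :=
  (∃ s ∈ H, s.t = g) ∧ ∀ h ∈ H, h.t ≠ g → (Pos h π ↔ Pos h (π.map g))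

def Step (H : Set (Half V)) (π π' : List V) : Prop :=
  Full π' ∧ (Eqv H π π' ∨ ∃ g, Simple H π g ∧ Eqv H (π.map g) π')

def Gal (H : Set (Half V)) : List V → List V → Prop := ReflTransGen (Step H)

theorem Gal.of_eqv {π π' : List V} (hπ : Full π') (e : Eqv H π π') : Gal H π π' :=
  ReflTransGen.single ⟨hπ, Or.inl e⟩

theorem Gal.trans {π π' π'' : List V} (a : Gal H π π') (b : Gal H π' π'') : Gal H π π'' :=
  ReflTransGen.trans a b

/-- the folds whose wall passes through `v` -/
def Thru (H : Set (Half V)) (v : V) : Set (Half V) := {h | h ∈ H ∧ h.t v = v}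

theorem IsSys.thru (hH : IsSys r H) (v : V) : IsSys r (Thru H v) where
  elem h hh := hH.elem h hh.1
  flip_mem h hh := ⟨hH.flip_mem h hh.1, hh.2⟩
  conj_mem s hs h hh := ⟨hH.conj_mem s hs.1 h hh.1, by
    simp [(hH.elem s hs.1).inv_eq, hs.2, hh.2]⟩

theorem NSW.thru (hN : NSW H) (v : V) : NSW (Thru H v) :=
  fun s hs k hk => hN s hs.1 k hk.1

theorem eqv_cons {v : V} {π π' : List V} (e : Eqv (Thru H v) π π') :
    Eqv H (v :: π) (v :: π') := by
  intro h hh
  by_cases hv : h.t v = v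
  · simp only [Pos, e h ⟨hh, hv⟩]
  · simp [Pos, hv]

theorem gal_cons {v : V} {π π' : List V} (g : Gal (Thru H v) π π') :
    Gal H (v :: π) (v :: π') := by
  induction g with
  | refl => exact ReflTransGen.refl
  | tail _ st ih =>
    refine ReflTransGen.tail ih ⟨st.1.cons v, ?_⟩
    rcases st.2 with e | ⟨g, ⟨⟨s, hs, rfl⟩, h2⟩, e⟩
    · exact Or.inl (eqv_cons e)
    · refine Or.inr ⟨s.t, ⟨⟨s, hs.1, rfl⟩, fun h hh hne => ?_⟩, ?_⟩
      · by_cases hv : h.t v = v
        · simp only [List.map_cons, hs.2, Pos, h2 h ⟨hh, hv⟩ hne]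
        · simp [Pos, hv, hs.2]
      · simpa only [List.map_cons, hs.2] using eqv_cons e

theorem exists_head (hH : IsSys r H) (π : List V) (hx : ∃ x ∈ π, ∃ h ∈ H, h.t x ≠ x) :
    ∃ v, (∃ h ∈ H, h.t v ≠ v) ∧ Eqv H π (v :: π) := by
  induction π with
  | nil => simp at hx
  | cons x π ih =>
    by_cases e : ∃ h ∈ H, h.t x ≠ x
    · refine ⟨x, e, fun h _ => ?_⟩
      simp only [Pos]
      tauto
    · push Not at e
      obtain ⟨y, hy, k, hk, hy'⟩ := hx
      rcases List.mem_cons.1 hy with rfl | hy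
      · exact absurd (e k hk) hy'
      obtain ⟨v, hv, ev⟩ := ih ⟨y, hy, k, hk, hy'⟩
      refine ⟨v, hv, fun h hh => ?_⟩
      have h1 : x ∉ h.L := fun h1 => (hH.elem h hh).notfix h1 (e h hh)
      have h2 := ev h hh
      simp only [Pos, h1, e h hh, true_and, false_or] at h2 ⊢
      exact h2

/-- swapping the first two entries -/
theorem pos_swap {h : Half V} (hh : IsFoldH r h) {v w : V} {π π' : List V}
    (h1 : ¬ (v ∈ h.L ∧ h.t w ∈ h.L)) (h2 : ¬ (w ∈ h.L ∧ h.t v ∈ h.L))
    (h3 : h.t v = v → h.t w = w → (Pos h π ↔ Pos h π')) :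
    Pos h (v :: w :: π) ↔ Pos h (w :: v :: π') := by
  have cv := hh.cover v
  have cw := hh.cover w
  have nv := hh.notfix (x := v)
  have nw := hh.notfix (x := w)
  simp only [Pos]
  tauto

theorem gal_all [Finite V] (hs : ∀ x y, r x y → r y x) (n : ℕ) :
    ∀ H : Set (Half V), H.ncard ≤ n → IsSys r H → NSW H →
      ∀ π π' : List V, Full π → Full π' → Gal H π π' := by
  have hfin : Finite (Half V) := Finite.of_injective (fun h : Half V => (h.t, h.L))
    (fun a b e => Half.ext (congrArg Prod.fst e) (congrArg Prod.snd e))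
  induction n with
  | zero =>
    intro H hn _ _ π π' _ hπ'
    have : H = ∅ := (Set.ncard_eq_zero (Set.toFinite H)).1 (Nat.le_zero.1 hn)
    subst this
    exact Gal.of_eqv hπ' (fun h hh => absurd hh (Set.notMem_empty h))
  | succ n ih =>
    intro H hn hH hN
    set X : Set V := {v | ∃ h ∈ H, h.t v ≠ v} with hX
    have i1 : ∀ v ∈ X, ∀ π π' : List V, Full π → Full π' → Gal H (v :: π) (v :: π') := by
      rintro v ⟨h, hh, hv⟩ π π' hπ hπ'
      refine gal_cons (ih _ ?_ (hH.thru v) (hN.thru v) π π' hπ hπ')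
      have : (Thru H v).ncard < H.ncard :=
        Set.ncard_lt_ncard ⟨fun k hk => hk.1, fun hsub => hv (hsub hh).2⟩ (Set.toFinite H)
      omega
    set R : V → V → Prop := fun v w =>
      ∀ π π' : List V, Full π → Full π' → Gal H (v :: π) (w :: π') with hR
    have Rtrans : ∀ u v w, R u v → R v w → R u w := fun u v w a b π π' hπ hπ' =>
      (a π π hπ hπ).trans (b π π' hπ hπ')
    have compat : ∀ v ∈ X, ∀ w ∈ X, (∀ h ∈ H, ¬ (v ∈ h.L ∧ h.t w ∈ h.L)) → R v w := by
      intro v hv w hw hc π π' hπ hπ'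
      refine (i1 v hv π (w :: π) hπ (hπ.cons w)).trans
        ((Gal.of_eqv ((hπ.cons v).cons w) fun h hh => ?_).trans
          (i1 w hw (v :: π) π' (hπ.cons v) hπ'))
      have eh := (hH.elem h hh).toIsFoldH
      refine pos_swap eh (hc h hh) (fun h1 => hc h.flip (hH.flip_mem h hh) ?_)
        (fun _ _ => Iff.rfl)
      simpa [eh.invol] using h1.symm
    have refl1 : ∀ s ∈ H, ∀ v, s.t v ≠ v →
        (∀ h ∈ H, v ∈ h.L → h.t (s.t v) ∈ h.L → h.t = s.t) → R v (s.t v) := by
      intro s hs' v hv hu π π' hπ hπ'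
      have es := (hH.elem s hs').toIsFoldH
      have vX : v ∈ X := ⟨s, hs', hv⟩
      have wX : s.t v ∈ X := ⟨s, hs', by rw [es.invol]; exact hv.symm⟩
      refine (i1 v vX π (s.t v :: π) hπ (hπ.cons _)).trans
        (Gal.trans (π' := s.t v :: v :: π.map s.t) (ReflTransGen.single
          ⟨((hπ.map _).cons _).cons _, Or.inr ⟨s.t, ⟨⟨s, hs', rfl⟩, fun h hh hne => ?_⟩, ?_⟩⟩)
          (i1 _ wX _ π' ((hπ.map _).cons _) hπ'))
      · have eh := (hH.elem h hh).toIsFoldH
        simp only [List.map_cons, es.invol]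
        refine pos_swap eh (fun h1 => hne (hu h hh h1.1 h1.2)) (fun h1 => hne ?_) ?_
        · exact hu h.flip (hH.flip_mem h hh) h1.2 (by simpa [eh.invol] using h1.1)
        · intro f1 f2
          have c1 : s.t = (s.act h.t).t := hH.uniq hN hs' (hH.conj_mem h hh s hs') hv (by
            simp [eh.inv_eq, f1, f2])
          have c2 : s.t * h.t * s.t⁻¹ = h.t := by
            rw [Half.act_t] at c1
            calc s.t * h.t * s.t⁻¹ = (h.t * s.t * h.t⁻¹) * h.t * s.t⁻¹ := by rw [← c1]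
              _ = h.t := by group
          have c3 := hH.comm_side hN hs' hh hne c2
          rw [pos_map, es.inv_eq, c3]
      · intro h _
        simp only [List.map_cons, es.invol]
    set Y : V → V → Prop := ReflTransGen (fun a b => b ∈ X ∧ r a b) with hY
    have YR : ∀ v ∈ X, ∀ w, Y v w → w ∈ X ∧ R v w := by
      intro v hv w hw
      induction hw with
      | refl => exact ⟨hv, i1 v hv⟩
      | tail _ hb ih' =>
        exact ⟨hb.1, Rtrans _ _ _ ih'.2 (compat _ ih'.1 _ hb.1 fun h hh h1 =>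
          (hH.elem h hh).no_edge h1.1 h1.2 hb.2)⟩
    have Ysymm : ∀ v ∈ X, ∀ w, Y v w → Y w v := by
      intro v hv w hw
      induction hw with
      | refl => exact ReflTransGen.refl
      | tail hab hb ih' => exact ReflTransGen.head ⟨(YR v hv _ hab).1, hs _ _ hb.2⟩ ih'
    have YL : ∀ h ∈ H, ∀ a ∈ h.L, ∀ b ∈ h.L, Y a b := by
      intro h hh a ha
      exact (hH.elem h hh).ind (P := fun b => Y a b) ha ReflTransGen.refl
        (fun c _ d hd hr ih' => ih'.tail ⟨⟨h, hh, (hH.elem h hh).notfix hd⟩, hr⟩)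
    have TT : ∀ h ∈ H, ∀ a ∈ h.L, ∀ b, h.t b ∈ h.L → ¬ Y a b → h.L = {z | Y a z} := by
      intro h hh a ha b hb hab
      have eh := (hH.elem h hh).toIsFoldH
      refine Set.Subset.antisymm (fun z hz => YL h hh a ha z hz) fun z hz => ?_
      induction hz with
      | refl => exact ha
      | @tail c d hc hd ih' =>
        rcases eh.cut c ih' d hd.2 with h1 | h1
        · exact h1
        · exfalso
          apply hab
          have h2 := eh.aut c d hd.2
          rw [h1] at h2
          have h3 : h.t c ∈ h.flip.L := by simpa [eh.invol] using ih'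
          have h4 : Y a (h.t c) := (hc.tail hd).tail
            ⟨⟨h, hh, eh.flip.notfix h3⟩, hs _ _ h2⟩
          exact h4.trans (YL h.flip (hH.flip_mem h hh) _ h3 b hb)
    have allR : ∀ v ∈ X, ∀ w ∈ X, R v w := by
      intro v hv w hw
      by_cases h1 : Y v w
      · exact (YR v hv w h1).2
      by_cases h2 : ∀ h ∈ H, ¬ (v ∈ h.L ∧ h.t w ∈ h.L)
      · exact compat v hv w hw h2
      push Not at h2
      obtain ⟨u, hu, vu, wu⟩ := h2
      have eu := (hH.elem u hu).toIsFoldH
      have h3 : u.t v ∈ u.flip.L := by simpa [eu.invol] using vu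
      have h4 : Y (u.t v) w := YL u.flip (hH.flip_mem u hu) _ h3 w wu
      have uvX : u.t v ∈ X := ⟨u, hu, eu.flip.notfix h3⟩
      have h5 : ¬ Y v (u.t v) := fun h5 => h1 (h5.trans h4)
      have h6 : ¬ Y (u.t v) v := fun h6 => h5 (Ysymm _ uvX _ h6)
      refine Rtrans _ _ _ (refl1 u hu v (eu.notfix vu) fun h hh a b => ?_) (YR _ uvX w h4).2
      have eh := (hH.elem h hh).toIsFoldH
      refine hN h hh u hu ?_ ?_
      · rw [TT h hh v a _ b h5, TT u hu v vu _ h3 h5]
      · rw [TT h.flip (hH.flip_mem h hh) (u.t v) b v (by simpa [eh.invol] using a) h6,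
          TT u.flip (hH.flip_mem u hu) (u.t v) h3 v (by simpa [eu.invol] using vu) h6]
    intro π π' hπ hπ'
    by_cases hne : ∃ x, x ∈ X
    · obtain ⟨x, hx⟩ := hne
      obtain ⟨v, hv, ev⟩ := exists_head hH π ⟨x, hπ x, hx⟩
      obtain ⟨w, hw, ew⟩ := exists_head hH π' ⟨x, hπ' x, hx⟩
      exact (Gal.of_eqv (hπ.cons v) ev).trans
        ((allR v hv w hw π π' hπ hπ').trans (Gal.of_eqv hπ' ew.symm))
    · refine Gal.of_eqv hπ' fun h hh => ?_
      obtain ⟨x, hx⟩ := (hH.elem h hh).ne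
      exact absurd ⟨x, h, hh, (hH.elem h hh).notfix hx⟩ hne

end Pool.Agent.P.MP_16ad8c_co
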