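import Mathlib

namespace Pool.Agent.P.MP_16ad8c_co

open Relation

variable {V : Type}

/-- an involution together with one of its two halves -/
@[ext] structure Half (V : Type) where
  t : Equiv.Perm V
  L : Set V

/-- the other half -/
def Half.flip (h : Half V) : Half V := ⟨h.t, {x | h.t x ∈ h.L}⟩

/-- transport by a permutation -/
def Half.act (g : Equiv.Perm V) (h : Half V) : Half V := ⟨g * h.t * g⁻¹, {x | g⁻¹ x ∈ h.L}⟩

@[simp] theorem Half.flip_t (h : Half V) : h.flip.t = h.t := rfl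
@[simp] theorem Half.mem_flip (h : Half V) (x : V) : x ∈ h.flip.L ↔ h.t x ∈ h.L := Iff.rfl
@[simp] theorem Half.act_t (g : Equiv.Perm V) (h : Half V) : (h.act g).t = g * h.t * g⁻¹ := rfl
@[simp] theorem Half.mem_act (g : Equiv.Perm V) (h : Half V) (x : V) :
    x ∈ (h.act g).L ↔ g⁻¹ x ∈ h.L := Iff.rfl

theorem Half.act_one (h : Half V) : h.act 1 = h := by
  ext1
  · simp
  · ext x; simp

theorem Half.act_mul (g k : Equiv.Perm V) (h : Half V) : h.act (g * k) = (h.act k).act g := by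
  ext1
  · simp [mul_assoc]
  · ext x; simp

/-- a fold -/
structure IsFoldH (r : V → V → Prop) (h : Half V) : Prop where
  invol : ∀ x, h.t (h.t x) = x
  aut : ∀ x y, r x y → r (h.t x) (h.t y)
  swap : ∀ x ∈ h.L, h.t x ∉ h.L
  cover : ∀ x, h.t x ≠ x → x ∈ h.L ∨ h.t x ∈ h.L
  cut : ∀ x ∈ h.L, ∀ y, r x y → y ∈ h.L ∨ h.t y = y

/-- an elementary fold: the half is nonempty and connected -/
structure IsElem (r : V → V → Prop) (h : Half V) : Prop extends IsFoldH r h where
  conn : ∀ x ∈ h.L, ∀ y ∈ h.L, ReflTransGen (fun a b => b ∈ h.L ∧ r a b) x y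
  ne : h.L.Nonempty

variable {r : V → V → Prop}

theorem IsFoldH.inv_eq {h : Half V} (hh : IsFoldH r h) : h.t⁻¹ = h.t := by
  ext x
  rw [Equiv.Perm.inv_eq_iff_eq, hh.invol]

theorem IsFoldH.mul_self {h : Half V} (hh : IsFoldH r h) : h.t * h.t = 1 := by
  ext x
  simp [hh.invol]

theorem IsFoldH.notfix {h : Half V} (hh : IsFoldH r h) {x : V} (hx : x ∈ h.L) : h.t x ≠ x := by
  intro e
  exact hh.swap x hx (by rw [e]; exact hx)

theorem IsFoldH.notfix' {h : Half V} (hh : IsFoldH r h) {x : V} (hx : h.t x ∈ h.L) :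
    h.t x ≠ x := by
  intro e
  have h2 := hx
  rw [e] at h2
  exact hh.swap x h2 hx

/-- no edge between the two halves -/
theorem IsFoldH.no_edge {h : Half V} (hh : IsFoldH r h) {x y : V} (hx : x ∈ h.L)
    (hy : h.t y ∈ h.L) : ¬ r x y := by
  intro hr
  rcases hh.cut x hx y hr with h1 | h1
  · exact hh.swap y h1 hy
  · exact hh.notfix' hy h1

theorem IsFoldH.flip {h : Half V} (hh : IsFoldH r h) : IsFoldH r h.flip where
  invol := hh.invol
  aut := hh.aut
  swap := by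
    intro x hx
    simp only [Half.mem_flip, Half.flip_t, hh.invol] at hx ⊢
    exact fun h2 => hh.swap x h2 hx
  cover := by
    intro x hx
    simp only [Half.mem_flip, Half.flip_t, hh.invol] at hx ⊢
    exact (hh.cover x hx).symm
  cut := by
    intro x hx y hr
    simp only [Half.mem_flip, Half.flip_t] at hx ⊢
    rcases hh.cut _ hx _ (hh.aut x y hr) with h1 | h1
    · exact Or.inl h1
    · rw [hh.invol] at h1
      exact Or.inr h1.symm

theorem IsFoldH.flip_flip {h : Half V} (hh : IsFoldH r h) : h.flip.flip = h := by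
  ext1
  · rfl
  · ext x; simp [hh.invol]

theorem IsFoldH.act_self {h : Half V} (hh : IsFoldH r h) : h.act h.t = h.flip := by
  ext1
  · simp
  · ext x; simp [hh.inv_eq]

theorem IsElem.ind {h : Half V} (hh : IsElem r h) {P : V → Prop} {x : V} (hx : x ∈ h.L)
    (hP : P x) (step : ∀ a ∈ h.L, ∀ b ∈ h.L, r a b → P a → P b) : ∀ y ∈ h.L, P y := by
  intro y hy
  have key : ∀ y, ReflTransGen (fun a b => b ∈ h.L ∧ r a b) x y → y ∈ h.L ∧ P y := by
    intro y hy
    induction hy with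
    | refl => exact ⟨hx, hP⟩
    | tail _ hb ih => exact ⟨hb.1, step _ ih.1 _ hb.1 hb.2 ih.2⟩
  exact (key y (hh.conn x hx y hy)).2

theorem IsElem.flip {h : Half V} (hh : IsElem r h) : IsElem r h.flip where
  toIsFoldH := hh.toIsFoldH.flip
  conn := by
    intro x hx y hy
    have := hh.ind (P := fun z => ReflTransGen (fun a b => b ∈ h.flip.L ∧ r a b) x (h.t z))
      (x := h.t x) hx (by rw [hh.invol]) (fun a _ b hb hr ih =>
        ih.tail ⟨by simpa [hh.invol] using hb, hh.aut _ _ hr⟩) (h.t y) hy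
    simpa [hh.invol] using this
  ne := by
    obtain ⟨x, hx⟩ := hh.ne
    exact ⟨h.t x, by simpa [hh.invol] using hx⟩

theorem IsElem.act {h : Half V} (hh : IsElem r h) {g : Equiv.Perm V}
    (hg : ∀ x y, r (g x) (g y) ↔ r x y) : IsElem r (h.act g) := by
  have hg' : ∀ x y, r x y → r (g⁻¹ x) (g⁻¹ y) := fun x y hr => by
    rw [← hg]; simpa using hr
  refine ⟨⟨?_, ?_, ?_, ?_, ?_⟩, ?_, ?_⟩
  · intro x; simp [hh.invol]
  · intro x y hr
    simpa [hg] using hh.aut _ _ (hg' x y hr)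
  · intro x hx
    simpa using hh.swap _ hx
  · intro x hx
    have : h.t (g⁻¹ x) ≠ g⁻¹ x := fun e => hx (by
      have e' : h.t (g.symm x) = g.symm x := e
      simp [e'])
    simpa using hh.cover _ this
  · intro x hx y hr
    rcases hh.cut _ hx _ (hg' x y hr) with h1 | h1
    · exact Or.inl h1
    · right
      have e' : h.t (g.symm y) = g.symm y := h1
      simp [e']
  · intro x hx y hy
    have := hh.ind (P := fun z => ReflTransGen (fun a b => b ∈ (h.act g).L ∧ r a b) x (g z))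
      (x := g⁻¹ x) hx (by simp; exact ReflTransGen.refl) (fun a _ b hb hr ih =>
        ih.tail ⟨by simpa using hb, (hg _ _).2 hr⟩) (g⁻¹ y) hy
    simpa using this
  · obtain ⟨x, hx⟩ := hh.ne
    exact ⟨g x, by simpa using hx⟩

/-- a connected half avoiding the wall of `h` lies on one side -/
theorem IsElem.sub {h k : Half V} (hh : IsFoldH r h) (hk : IsElem r k)
    (hn : ∀ y ∈ k.L, h.t y ≠ y) {x : V} (hx : x ∈ k.L) (hx' : x ∈ h.L) : k.L ⊆ h.L :=
  hk.ind (P := fun y => y ∈ h.L) hx hx' fun a _ b hb hr ha =>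
    (hh.cut a ha b hr).resolve_right (hn b hb)

theorem IsElem.sub_or {h k : Half V} (hh : IsFoldH r h) (hk : IsElem r k)
    (hn : ∀ y ∈ k.L, h.t y ≠ y) : k.L ⊆ h.L ∨ k.L ⊆ h.flip.L := by
  obtain ⟨x, hx⟩ := hk.ne
  rcases hh.cover x (hn x hx) with h1 | h1
  · exact Or.inl (IsElem.sub hh hk hn hx h1)
  · exact Or.inr (IsElem.sub hh.flip hk hn hx h1)

theorem IsElem.eq_or {h k : Half V} (hh : IsElem r h) (hk : IsElem r k) (e : k.t = h.t) :
    k = h ∨ k = h.flip := by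
  obtain ⟨x, hx⟩ := hk.ne
  have hn : ∀ y ∈ k.L, h.t y ≠ y := fun y hy => e ▸ hk.notfix hy
  rcases hh.cover x (hn x hx) with h1 | h1
  · left
    refine Half.ext e (Set.Subset.antisymm (IsElem.sub hh.toIsFoldH hk hn hx h1) ?_)
    exact IsElem.sub hk.toIsFoldH hh (fun y hy => e ▸ hh.notfix hy) h1 hx
  · right
    refine Half.ext e (Set.Subset.antisymm (IsElem.sub hh.flip.toIsFoldH hk hn hx h1) ?_)
    exact IsElem.sub hk.toIsFoldH hh.flip (fun y hy => e ▸ hh.flip.notfix hy) h1 hx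

/-- a family of elementary folds closed under flips and conjugation -/
structure IsSys (r : V → V → Prop) (H : Set (Half V)) : Prop where
  elem : ∀ h ∈ H, IsElem r h
  flip_mem : ∀ h ∈ H, h.flip ∈ H
  conj_mem : ∀ s ∈ H, ∀ h ∈ H, h.act s.t ∈ H

/-- distinct involutions have distinct pairs of halves -/
def NSW (H : Set (Half V)) : Prop :=
  ∀ s ∈ H, ∀ k ∈ H, s.L = k.L → s.flip.L = k.flip.L → s.t = k.t

variable {H : Set (Half V)}

theorem IsSys.same_halves (hH : IsSys r H) {x y : V} {h k : Half V} (hh : h ∈ H) (hk : k ∈ H)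
    (hx : x ∈ h.L) (kx : x ∈ k.L) (hy : h.t x = y) (ky : k.t x = y) :
    h.L = k.L ∧ h.flip.L = k.flip.L := by
  set 𝒰 : Set (Half V) := {u | u ∈ H ∧ x ∈ u.L ∧ u.t x = y} with h𝒰
  have A : ∀ u ∈ 𝒰, ∀ w ∈ 𝒰, ∀ z, (∀ q ∈ 𝒰, z ∈ q.L) → w.t (u.t z) ∈ w.L := by
    rintro u ⟨uH, ux, uy⟩ w ⟨wH, wx, wy⟩ z hz
    have eu := (hH.elem u uH).toIsFoldH
    have ew := (hH.elem w wH).toIsFoldH
    have wy' : w.t y = x := by rw [← wy, ew.invol]
    have := hz (w.flip.act u.t) ⟨hH.conj_mem u uH _ (hH.flip_mem w wH), by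
      simp [eu.inv_eq, uy, wy', wx], by simp [eu.inv_eq, uy, wy']⟩
    simpa [eu.inv_eq] using this
  have B : ∀ u ∈ 𝒰, ∀ z ∈ u.L, ∀ q ∈ 𝒰, z ∈ q.L := by
    intro u hu
    have eu := hH.elem u hu.1
    refine eu.ind (P := fun z => ∀ q ∈ 𝒰, z ∈ q.L) hu.2.1 (fun q hq => hq.2.1) ?_
    intro a _ b hb hr ha q hq
    have eq := (hH.elem q hq.1).toIsFoldH
    rcases eq.cut a (ha q hq) b hr with h1 | h1
    · exact h1
    · exfalso
      have h2 := eq.aut a b hr
      rw [h1] at h2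
      have h3 := eu.aut _ _ h2
      exact eu.no_edge (A q hq u hu a ha) (by rw [eu.invol]; exact hb) h3
  have C : ∀ u ∈ 𝒰, ∀ w ∈ 𝒰, u.flip.L ⊆ w.flip.L := by
    intro u hu w hw z hz
    have := A u hu w hw (u.t z) (B u hu _ hz)
    rwa [(hH.elem u hu.1).invol] at this
  have h1 : h ∈ 𝒰 := ⟨hh, hx, hy⟩
  have k1 : k ∈ 𝒰 := ⟨hk, kx, ky⟩
  exact ⟨Set.Subset.antisymm (fun z hz => B h h1 z hz k k1) (fun z hz => B k k1 z hz h h1),
    Set.Subset.antisymm (C h h1 k k1) (C k k1 h h1)⟩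

theorem IsSys.exists_half (hH : IsSys r H) {h : Half V} (hh : h ∈ H) {x : V} (hx : h.t x ≠ x) :
    ∃ k ∈ H, k.t = h.t ∧ x ∈ k.L := by
  rcases (hH.elem h hh).cover x hx with h1 | h1
  · exact ⟨h, hh, rfl, h1⟩
  · exact ⟨h.flip, hH.flip_mem h hh, rfl, h1⟩

theorem IsSys.uniq (hH : IsSys r H) (hN : NSW H) {x : V} {h k : Half V} (hh : h ∈ H)
    (hk : k ∈ H) (hx : h.t x ≠ x) (e : k.t x = h.t x) : h.t = k.t := by
  obtain ⟨h', hh', e1, x1⟩ := hH.exists_half hh hx
  obtain ⟨k', hk', e2, x2⟩ := hH.exists_half hk (x := x) (by rw [e]; exact hx)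
  obtain ⟨a, b⟩ := hH.same_halves hh' hk' x1 x2 rfl (by rw [e1, e2, e])
  rw [← e1, ← e2]
  exact hN _ hh' _ hk' a b

theorem IsSys.comm_side (hH : IsSys r H) (hN : NSW H) {s u : Half V} (hs : s ∈ H) (hu : u ∈ H)
    (hne : u.t ≠ s.t) (hc : s.t * u.t * s.t⁻¹ = u.t) : u.act s.t = u := by
  have es := hH.elem s hs
  have eu := hH.elem u hu
  rcases eu.eq_or (hH.elem _ (hH.conj_mem s hs u hu)) hc with h1 | h1
  · exact h1
  exfalso
  have hsw : ∀ x, s.t x ∈ u.L ↔ u.t x ∈ u.L := fun x => by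
    have : x ∈ (u.act s.t).L ↔ x ∈ u.flip.L := by rw [h1]
    simpa [es.inv_eq] using this
  have hn : ∀ y ∈ u.L, s.t y ≠ y := fun y hy e =>
    eu.swap y hy ((hsw y).1 (by rw [e]; exact hy))
  have main : ∀ s' ∈ H, s'.t = s.t → u.L ⊆ s'.L → False := by
    intro s' hs' e hsub
    have es' := hH.elem s' hs'
    obtain ⟨x, hx⟩ := eu.ne
    have hsub' : s'.L ⊆ u.L := es'.ind (P := fun z => z ∈ u.L) (hsub hx) hx (by
      intro a _ b hb hr ha
      rcases eu.cut a ha b hr with h2 | h2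
      · exact h2
      · exfalso
        have h3 := eu.aut a b hr
        rw [h2] at h3
        have h4 : s.t (u.t a) ∈ u.L := (hsw _).2 (by rw [eu.invol]; exact ha)
        have h5 := es'.aut _ _ h3
        rw [← e] at h4
        exact es'.no_edge (hsub h4) (by rw [es'.invol]; exact hb) h5)
    have eL : u.L = s'.L := Set.Subset.antisymm hsub hsub'
    apply hne
    rw [← e]
    refine hN u hu s' hs' eL ?_
    ext z
    simp only [Half.mem_flip, ← eL, e]
    exact (hsw z).symm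
  rcases IsElem.sub_or es.toIsFoldH eu hn with h2 | h2
  · exact main s hs rfl h2
  · exact main s.flip (hH.flip_mem s hs) rfl h2

end Pool.Agent.P.MP_16ad8c_co
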