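import Pool.Agent.P.MP_16ad8c_co.Chamber

namespace Pool.Agent.P.MP_16ad8c_co

open Relation

variable {V : Type} (r : V → V → Prop) (side : V → Bool)

def Aut (g : Equiv.Perm V) : Prop :=
  (∀ x, side (g x) = side x) ∧ ∀ x y, r (g x) (g y) ↔ r x y

def All : Set (Half V) := {h | IsElem r h ∧ ∀ x, side (h.t x) = side x}

def Nested (b : Equiv.Perm V) : Prop := Aut r side b ∧ ∃ s ∈ All r side, ∀ x, b x ≠ x → x ∈ s.L

def Top : Set (Half V) := {h | h ∈ All r side ∧ ¬ Nested r side h.t}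

variable {r side}

theorem IsFoldH.aut_iff {h : Half V} (hh : IsFoldH r h) (x y : V) :
    r (h.t x) (h.t y) ↔ r x y :=
  ⟨fun h1 => by simpa [hh.invol] using hh.aut _ _ h1, hh.aut x y⟩

theorem All.aut {h : Half V} (hh : h ∈ All r side) : Aut r side h.t :=
  ⟨hh.2, hh.1.aut_iff⟩

theorem Aut.inv {g : Equiv.Perm V} (hg : Aut r side g) : Aut r side g⁻¹ :=
  ⟨fun x => by rw [← hg.1 (g⁻¹ x)]; simp, fun x y => by rw [← hg.2 (g⁻¹ x)]; simp⟩

theorem Aut.mul {g k : Equiv.Perm V} (hg : Aut r side g) (hk : Aut r side k) :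
    Aut r side (g * k) :=
  ⟨fun x => by rw [Equiv.Perm.mul_apply, hg.1, hk.1],
    fun x y => by rw [Equiv.Perm.mul_apply, Equiv.Perm.mul_apply, hg.2, hk.2]⟩

theorem All.act {h : Half V} (hh : h ∈ All r side) {g : Equiv.Perm V} (hg : Aut r side g) :
    h.act g ∈ All r side :=
  ⟨hh.1.act hg.2, ((hg.mul (All.aut hh)).mul hg.inv).1⟩

theorem All.flip {h : Half V} (hh : h ∈ All r side) : h.flip ∈ All r side := ⟨hh.1.flip, hh.2⟩

theorem all_sys : IsSys r (All r side) where
  elem _ hh := hh.1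
  flip_mem _ hh := All.flip hh
  conj_mem _ hs _ hh := All.act hh (All.aut hs)

theorem Nested.inv {b : Equiv.Perm V} (hb : Nested r side b) : Nested r side b⁻¹ := by
  obtain ⟨h1, s, hs, h2⟩ := hb
  refine ⟨h1.inv, s, hs, fun x hx => h2 x fun e => hx ?_⟩
  rw [Equiv.Perm.inv_eq_iff_eq, e]

theorem Nested.conj {b g : Equiv.Perm V} (hb : Nested r side b) (hg : Aut r side g) :
    Nested r side (g * b * g⁻¹) := by
  obtain ⟨h1, s, hs, h2⟩ := hb
  refine ⟨(hg.mul h1).mul hg.inv, s.act g, All.act hs hg, fun x hx => h2 _ fun e => hx ?_⟩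
  rw [Equiv.Perm.mul_apply, Equiv.Perm.mul_apply, e]
  simp

theorem Top.flip {h : Half V} (hh : h ∈ Top r side) : h.flip ∈ Top r side :=
  ⟨All.flip hh.1, hh.2⟩

theorem Top.act {h : Half V} (hh : h ∈ Top r side) {g : Equiv.Perm V} (hg : Aut r side g) :
    h.act g ∈ Top r side :=
  ⟨All.act hh.1 hg, fun hn => hh.2 (by
    have := hn.conj hg.inv
    rw [Half.act_t] at this
    convert this using 1
    group)⟩

theorem dichotomy {b : Equiv.Perm V} (hb : Aut r side b) {h : Half V} (hh : h ∈ All r side) :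
    (∀ x, h.t x ≠ x → b x ≠ x ∨ b (h.t x) ≠ h.t x) ∨ ∀ x, b x ∈ h.L ↔ x ∈ h.L := by
  by_cases hc : ∀ x, h.t x ≠ x → b x ≠ x ∨ b (h.t x) ≠ h.t x
  · exact Or.inl hc
  right
  push Not at hc
  obtain ⟨x, hx, b1, b2⟩ := hc
  have key : ∀ z ∈ h.L, b z = z → b (h.t z) = h.t z → ∀ x, b x ∈ h.L ↔ x ∈ h.L := by
    intro z hz c1 c2 y
    have c3 : b⁻¹ (h.t z) = h.t z := by rw [Equiv.Perm.inv_eq_iff_eq, c2]
    have := (all_sys.same_halves hh (All.act hh hb.inv) hz (by simpa [c1] using hz) rfl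
      (by rw [Half.act_t, inv_inv, Equiv.Perm.mul_apply, Equiv.Perm.mul_apply, c1, c3])).1
    have h2 : y ∈ h.L ↔ y ∈ (h.act b⁻¹).L := by rw [← this]
    simpa using h2.symm
  rcases hh.1.cover x hx with h1 | h1
  · exact key x h1 b1 b2
  · exact key _ h1 b2 (by rw [hh.1.invol]; exact b1)

theorem nested_pres [Finite V] {b : Equiv.Perm V} (hb : Nested r side b) {h : Half V}
    (hh : h ∈ Top r side) (x : V) : b x ∈ h.L ↔ x ∈ h.L := by
  obtain ⟨ab, s, hs, hsup⟩ := hb
  rcases dichotomy ab hh.1 with hd | hd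
  swap
  · exact hd x
  have eh := hh.1.1
  have es := hs.1
  have star : ∀ x, h.t x ≠ x → x ∈ s.L ∨ h.t x ∈ s.L := fun x hx =>
    (hd x hx).imp (hsup _) (hsup _)
  have bL : ∀ x, b x ∈ s.L ↔ x ∈ s.L := by
    intro x
    by_cases e : b x = x
    · rw [e]
    · exact iff_of_true (hsup _ fun e2 => e (b.injective e2)) (hsup _ e)
  have hn : ∀ z ∈ s.L, h.t z ≠ z := by
    intro z hz hfix
    have es' := (All.act hs (All.aut hh.1)).1
    have mL : ∀ x, x ∈ (s.act h.t).L ↔ h.t x ∈ s.L := fun x => by simp [eh.inv_eq]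
    have mR : ∀ x, x ∈ (s.act h.t).flip.L ↔ s.t (h.t x) ∈ s.L := fun x => by
      simp [eh.inv_eq, eh.invol]
    have nf : ∀ x ∈ s.flip.L, (s.act h.t).t x ≠ x := by
      intro x hx
      by_cases e : h.t x = x
      · exact es'.flip.notfix ((mR x).2 (by rw [e]; exact hx))
      · rcases star x e with h1 | h1
        · exact absurd hx (es.swap x h1)
        · exact es'.notfix ((mL x).2 h1)
    rcases IsElem.sub_or es'.toIsFoldH es.flip nf with hA | hB
    · have hm : Set.MapsTo (fun x => h.t (s.t x)) s.L s.L := fun x hx =>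
        (mL _).1 (hA (by simpa [es.invol] using hx))
      have hinj : Set.InjOn (fun x => h.t (s.t x)) s.L := fun x _ y _ e =>
        s.t.injective (h.t.injective e)
      obtain ⟨x, hx, e⟩ := ((Set.toFinite s.L).injOn_iff_bijOn_of_mapsTo hm).1 hinj |>.surjOn hz
      have e2 : s.t x = z := by
        have := congrArg h.t e
        simp only [eh.invol, hfix] at this
        exact this
      exact es.swap x hx (e2 ▸ hz)
    · have fixR : ∀ x, s.t x ∈ s.L → h.t x = x := by
        intro x hx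
        by_contra e
        rcases star x e with h1 | h1
        · exact es.swap x h1 hx
        · exact es'.swap x ((mL x).2 h1) (hB hx)
      have sub : ∀ y ∈ s.L, y ∈ (s.act h.t).L := by
        refine es.ind (P := fun y => y ∈ (s.act h.t).L) hz ((mL z).2 (by rw [hfix]; exact hz)) ?_
        intro a _ c hc hr ha
        rcases es'.cut a ha c hr with h1 | h1
        · exact h1
        · exfalso
          have h2 := es'.aut a c hr
          rw [h1] at h2
          have h3 : (s.act h.t).t a = s.t (h.t a) := by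
            have : s.t (s.t (h.t a)) ∈ s.L := by rw [es.invol]; exact (mL a).1 ha
            simpa [eh.inv_eq] using fixR _ this
          rw [h3] at h2
          have h4 := es.aut _ _ h2
          rw [es.invol] at h4
          exact es.no_edge ((mL a).1 ha) (by rw [es.invol]; exact hc) h4
      refine hh.2 ⟨All.aut hh.1, s, hs, fun x hx => ?_⟩
      rcases star x hx with h1 | h1
      · exact h1
      · have := (mL _).1 (sub _ h1)
        rwa [eh.invol] at this
  rcases IsElem.sub_or eh.toIsFoldH es hn with h1 | h1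
  · have e : ∀ x, x ∈ h.L ↔ x ∈ s.L := fun x => ⟨fun hx =>
      (star x (eh.notfix hx)).resolve_right fun h2 => eh.swap x hx (h1 h2), fun hx => h1 hx⟩
    rw [e, e, bL]
  · by_cases e : b x = x
    · rw [e]
    · have a1 : x ∈ s.L := hsup _ e
      have a2 : b x ∈ s.L := (bL x).2 a1
      exact iff_of_false (fun h2 => eh.swap _ h2 (h1 a2)) (fun h2 => eh.swap _ h2 (h1 a1))

/-- same wall gives nested automorphisms -/
theorem same_wall (hs : ∀ x y, r x y → r y x) {s k : Half V} (hs' : s ∈ All r side)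
    (hk : k ∈ All r side) (e1 : ∀ x, x ∈ s.L ↔ x ∈ k.L)
    (e2 : ∀ x, s.t x ∈ s.L ↔ k.t x ∈ k.L) {x : V} (hx : s.t x ∈ s.L) :
    ∃ b, Nested r side b ∧ b (s.t x) = k.t x := by
  classical
  have es := hs'.1
  have ek := hk.1
  have m1 : ∀ y ∈ s.L, k.t (s.t y) ∈ s.L := fun y hy =>
    (e1 _).2 ((e2 _).1 (by rw [es.invol]; exact hy))
  have m2 : ∀ y ∈ s.L, s.t (k.t y) ∈ s.L := fun y hy =>
    (e2 _).2 (by rw [ek.invol]; exact (e1 _).1 hy)
  have fx : ∀ y, s.t y = y → k.t y = y := by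
    intro y hy
    by_contra hne
    rcases ek.cover y hne with h1 | h1
    · exact es.notfix ((e1 _).2 h1) hy
    · exact es.notfix' ((e2 _).2 h1) hy
  let b : Equiv.Perm V :=
    { toFun := fun y => if y ∈ s.L then k.t (s.t y) else y
      invFun := fun y => if y ∈ s.L then s.t (k.t y) else y
      left_inv := fun y => by
        by_cases hy : y ∈ s.L
        · simp [hy, m1 y hy, ek.invol, es.invol]
        · simp [hy]
      right_inv := fun y => by
        by_cases hy : y ∈ s.L
        · simp [hy, m2 y hy, ek.invol, es.invol]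
        · simp [hy] }
  have hb : ∀ y, b y = if y ∈ s.L then k.t (s.t y) else y := fun _ => rfl
  have mix : ∀ a ∈ s.L, ∀ c, c ∉ s.L → (r (k.t (s.t a)) c ↔ r a c) := by
    intro a ha c hc
    constructor
    · intro hr
      have f := (es.cut _ (m1 a ha) c hr).resolve_left hc
      have h2 : r (k.t (s.t a)) (k.t (s.t c)) := by rw [f, fx c f]; exact hr
      rwa [ek.aut_iff, es.aut_iff] at h2
    · intro hr
      have f := (es.cut _ ha c hr).resolve_left hc
      have := ek.aut _ _ (es.aut _ _ hr)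
      rwa [f, fx c f] at this
  refine ⟨b, ⟨⟨fun y => ?_, fun y z => ?_⟩, s, hs', fun y hy => ?_⟩, ?_⟩
  · rw [hb]
    split_ifs
    · rw [hk.2, hs'.2]
    · rfl
  · rw [hb, hb]
    by_cases hy : y ∈ s.L <;> by_cases hz : z ∈ s.L <;> simp only [hy, hz, if_true, if_false]
    · rw [ek.aut_iff, es.aut_iff]
    · exact mix y hy z hz
    · exact ⟨fun h => hs _ _ ((mix z hz y hy).1 (hs _ _ h)),
        fun h => hs _ _ ((mix z hz y hy).2 (hs _ _ h))⟩
  · by_contra hn
    exact hy (by rw [hb, if_neg hn])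
  · rw [hb, if_pos hx, es.invol]

theorem Nested.top [Finite V] {b : Equiv.Perm V} (hb : Nested r side b) :
    ∃ s ∈ Top r side, ∀ x, b x ≠ x → x ∈ s.L := by
  have key : ∀ n, ∀ s ∈ All r side, (∀ x, b x ≠ x → x ∈ s.L) → (s.Lᶜ).ncard < n →
      ∃ s ∈ Top r side, ∀ x, b x ≠ x → x ∈ s.L := by
    intro n
    induction n with
    | zero => intro s _ _ h; omega
    | succ n ih =>
      intro s hs hsup hn
      by_cases hN : Nested r side s.t
      · obtain ⟨_, s2, hs2, h2⟩ := hN
        have sub : s.L ⊆ s2.L := fun x hx => h2 x (hs.1.notfix hx)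
        refine ih s2 hs2 (fun x hx => sub (hsup x hx)) ?_
        obtain ⟨x, hx⟩ := hs.1.flip.ne
        have : (s2.Lᶜ).ncard < (s.Lᶜ).ncard := Set.ncard_lt_ncard
          ⟨Set.compl_subset_compl.2 sub, fun hc => hc (fun h3 => hs.1.swap x h3 hx)
            (h2 x (hs.1.flip.notfix hx))⟩ (Set.toFinite _)
        omega
      · exact ⟨s, ⟨hs, hN⟩, hsup⟩
  obtain ⟨_, s, hs, hsup⟩ := hb
  exact key _ s hs hsup (Nat.lt_succ_self _)

end Pool.Agent.P.MP_16ad8c_co
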